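import Mathlib

open MeasureTheory Set
open scoped ENNReal NNReal

namespace Pool.Agent.MP_8487d8_lc

/-- An instance of the prophet problem on a simple graph: a finite simple graph, for every edge
the law (with finite mean) of its nonnegative value, and an order of arrival of all the edges.
The values of distinct edges are independent. -/
structure Instance where
  /-- the vertex set -/
  V : Type
  fin : Finite V
  /-- the simple graph -/
  G : SimpleGraph V
  /-- the law of the value of each edge -/
  law : G.edgeSet → Measure ℝ≥0
  prob : ∀ e, IsProbabilityMeasure (law e)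
  finite_mean : ∀ e, ∫⁻ t, (t : ℝ≥0∞) ∂(law e) ≠ ∞
  /-- the order in which the edges arrive -/
  order : List G.edgeSet
  order_nodup : order.Nodup
  order_complete : ∀ e, e ∈ order

namespace Instance

variable (I : Instance)

instance : Finite I.V := I.fin

noncomputable instance : Fintype I.G.edgeSet := Fintype.ofFinite _

noncomputable instance : DecidableEq I.G.edgeSet := Classical.decEq _

/-- The joint law of the independent values of the edges. -/
noncomputable def joint : Measure (I.G.edgeSet → ℝ≥0) := Measure.pi I.law

/-- The graph formed by a set of edges. -/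
def graph (F : Finset I.G.edgeSet) : SimpleGraph I.V :=
  SimpleGraph.fromEdgeSet {s : Sym2 I.V | ∃ e ∈ F, (e : Sym2 I.V) = s}

/-- A set of edges is a forest if it contains no cycle. -/
def IsForest (F : Finset I.G.edgeSet) : Prop := (I.graph F).IsAcyclic

/-- The prophet's value: the maximum total value of a forest. -/
noncomputable def opt (x : I.G.edgeSet → ℝ≥0) : ℝ≥0∞ :=
  ⨆ (F : Finset I.G.edgeSet) (_ : I.IsForest F), ∑ e ∈ F, (x e : ℝ≥0∞)

open Classical in
/-- The edges held after processing the list, having started from the set `A`: an edge is accepted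
exactly when its value reaches its threshold and adding it leaves a forest. -/
noncomputable def run (T : I.G.edgeSet → {t : EReal // t ≠ ⊥}) (x : I.G.edgeSet → ℝ≥0) :
    List I.G.edgeSet → Finset I.G.edgeSet → Finset I.G.edgeSet
  | [], A => A
  | e :: l, A =>
    if (T e : EReal) ≤ ((x e : ℝ) : EReal) ∧ I.IsForest (insert e A) then
      run T x l (insert e A)
    else run T x l A

/-- The total value of the edges accepted with thresholds `T`. -/
noncomputable def alg (T : I.G.edgeSet → {t : EReal // t ≠ ⊥}) (x : I.G.edgeSet → ℝ≥0) : ℝ≥0∞ :=
  ∑ e ∈ I.run T x I.order ∅, (x e : ℝ≥0∞)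

/-- The expected value of the prophet. -/
noncomputable def expOpt : ℝ≥0∞ := ∫⁻ x, I.opt x ∂I.joint

/-- The expected value of the algorithm whose thresholds are drawn, independently of the values,
from the probability measure `ν`. -/
noncomputable def expAlg (ν : ProbabilityMeasure (I.G.edgeSet → {t : EReal // t ≠ ⊥})) : ℝ≥0∞ :=
  ∫⁻ T, ∫⁻ x, I.alg T x ∂I.joint ∂(ν : Measure (I.G.edgeSet → {t : EReal // t ≠ ⊥}))

end Instance

/-- The optimal worst-case ratio: the infimum over all non-adaptive (possibly randomised)
algorithms of the supremum over all instances on simple graphs of the ratio of the expectations. -/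
noncomputable def rhoSimple : ℝ≥0∞ :=
  ⨅ A : (I : Instance) → ProbabilityMeasure (I.G.edgeSet → {t : EReal // t ≠ ⊥}),
    ⨆ I : Instance, I.expOpt / I.expAlg (A I)

end Pool.Agent.MP_8487d8_lc
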