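import Pool.Agent.MP_8487d8_lc.Defs

open MeasureTheory Set
open scoped ENNReal NNReal

set_option linter.unusedSectionVars false

namespace Pool.Agent.MP_8487d8_lc

/-! ### Greedy acceptance -/

namespace Instance

variable (I : Instance) (T : I.G.edgeSet → {t : EReal // t ≠ ⊥}) (x : I.G.edgeSet → ℝ≥0)

lemma graph_adj {F : Finset I.G.edgeSet} {a b : I.V} :
    (I.graph F).Adj a b ↔ ∃ e ∈ F, (e : Sym2 I.V) = s(a, b) := by
  unfold graph
  rw [SimpleGraph.fromEdgeSet_adj]
  constructor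
  · rintro ⟨h, _⟩; exact h
  · rintro ⟨e, he, hs⟩
    refine ⟨⟨e, he, hs⟩, ?_⟩
    have : s(a, b) ∈ I.G.edgeSet := hs ▸ e.2
    exact (I.G.mem_edgeSet.1 this).ne

lemma graph_mono {F F' : Finset I.G.edgeSet} (h : F ⊆ F') : I.graph F ≤ I.graph F' := by
  intro a b hab
  rw [graph_adj] at hab ⊢
  obtain ⟨e, he, hs⟩ := hab
  exact ⟨e, h he, hs⟩

lemma isForest_empty : I.IsForest ∅ := by
  unfold IsForest graph
  have : {s : Sym2 I.V | ∃ e ∈ (∅ : Finset I.G.edgeSet), (e : Sym2 I.V) = s} = ∅ := by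
    ext s; simp
  rw [this, SimpleGraph.fromEdgeSet_empty]
  exact SimpleGraph.isAcyclic_bot

lemma run_append (l l' : List I.G.edgeSet) (A : Finset I.G.edgeSet) :
    I.run T x (l ++ l') A = I.run T x l' (I.run T x l A) := by
  induction l generalizing A with
  | nil => rfl
  | cons e l ih =>
    simp only [List.cons_append, run]
    split_ifs
    · exact ih _
    · exact ih _

lemma subset_run (l : List I.G.edgeSet) (A : Finset I.G.edgeSet) : A ⊆ I.run T x l A := by
  induction l generalizing A with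
  | nil => exact Finset.Subset.refl _
  | cons e l ih =>
    simp only [run]
    split_ifs
    · exact (Finset.subset_insert _ _).trans (ih _)
    · exact ih _

lemma run_isForest (l : List I.G.edgeSet) {A : Finset I.G.edgeSet} (hA : I.IsForest A) :
    I.IsForest (I.run T x l A) := by
  induction l generalizing A with
  | nil => exact hA
  | cons e l ih =>
    simp only [run]
    split_ifs with h
    · exact ih h.2
    · exact ih hA

lemma mem_run (l : List I.G.edgeSet) (A : Finset I.G.edgeSet) {e : I.G.edgeSet}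
    (he : e ∈ I.run T x l A) : e ∈ A ∨ (e ∈ l ∧ (T e : EReal) ≤ ((x e : ℝ) : EReal)) := by
  induction l generalizing A with
  | nil => exact Or.inl he
  | cons f l ih =>
    simp only [run] at he
    split_ifs at he with h
    · rcases ih _ he with h' | h'
      · rw [Finset.mem_insert] at h'
        rcases h' with rfl | h'
        · exact Or.inr ⟨List.mem_cons_self, h.1⟩
        · exact Or.inl h'
      · exact Or.inr ⟨List.mem_cons_of_mem _ h'.1, h'.2⟩
    · rcases ih _ he with h' | h'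
      · exact Or.inl h'
      · exact Or.inr ⟨List.mem_cons_of_mem _ h'.1, h'.2⟩

lemma run_congr (x' : I.G.edgeSet → ℝ≥0) (l : List I.G.edgeSet) (A : Finset I.G.edgeSet)
    (h : ∀ e ∈ l, x e = x' e) : I.run T x l A = I.run T x' l A := by
  induction l generalizing A with
  | nil => rfl
  | cons e l ih =>
    simp only [run]
    rw [h e List.mem_cons_self]
    split_ifs
    · exact ih _ (fun f hf => h f (List.mem_cons_of_mem _ hf))
    · exact ih _ (fun f hf => h f (List.mem_cons_of_mem _ hf))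

lemma reachable_of_not_forest {A : Finset I.G.edgeSet} (hA : I.IsForest A) {e : I.G.edgeSet}
    (he : ¬ I.IsForest (insert e A)) {a b : I.V} (hab : (e : Sym2 I.V) = s(a, b)) :
    (I.graph A).Reachable a b := by
  by_contra hr
  apply he
  unfold IsForest
  have h1 := SimpleGraph.IsAcyclic.sup_edge_of_not_reachable hr hA
  refine h1.anti ?_
  intro c d hcd
  rw [graph_adj] at hcd
  obtain ⟨f, hf, hs⟩ := hcd
  rw [Finset.mem_insert] at hf
  rw [SimpleGraph.sup_adj]
  rcases hf with rfl | hf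
  · right
    rw [SimpleGraph.edge_adj]
    have h2 : s(a, b) = s(c, d) := hab.symm.trans hs
    have h3 : s(c, d) ∈ I.G.edgeSet := hs ▸ f.2
    refine ⟨?_, (I.G.mem_edgeSet.1 h3).ne⟩
    rw [Sym2.eq_iff] at h2
    rcases h2 with ⟨h, h'⟩ | ⟨h, h'⟩
    · left; exact ⟨h.symm, h'.symm⟩
    · right; exact ⟨h'.symm, h.symm⟩
  · left
    rw [graph_adj]
    exact ⟨f, hf, hs⟩

lemma run_reachable (l : List I.G.edgeSet) {A : Finset I.G.edgeSet} (hA : I.IsForest A)
    {e : I.G.edgeSet} (he : e ∈ l) (hT : (T e : EReal) ≤ ((x e : ℝ) : EReal)) {a b : I.V}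
    (hab : (e : Sym2 I.V) = s(a, b)) : (I.graph (I.run T x l A)).Reachable a b := by
  classical
  induction l generalizing A with
  | nil => simp at he
  | cons f l ih =>
    simp only [run]
    by_cases hef : e = f
    · subst hef
      split_ifs with h
      · have h1 : e ∈ I.run T x l (insert e A) :=
          I.subset_run T x l _ (by convert Finset.mem_insert_self e A)
        exact SimpleGraph.Adj.reachable ((I.graph_adj).2 ⟨e, h1, hab⟩)
      · have h2 : ¬ I.IsForest (insert e A) := fun h' => h ⟨hT, by convert h'⟩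
        exact (I.reachable_of_not_forest hA h2 hab).mono (I.graph_mono (I.subset_run T x l A))
    · have hel : e ∈ l := by
        rcases List.mem_cons.1 he with h | h
        · exact absurd h hef
        · exact h
      split_ifs with h
      · exact ih h.2 hel
      · exact ih hA hel

end Instance

/-- In a forest two neighbours of a vertex are not joined by a path avoiding this vertex. -/
lemma not_reachable_of_isAcyclic {V : Type} {H H' : SimpleGraph V} (hH : H.IsAcyclic)
    (hle : H' ≤ H) {z y y' : V} (hz : ∀ a, ¬ H'.Adj z a) (hy : H.Adj z y) (hy' : H.Adj z y')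
    (hne : y ≠ y') : ¬ H'.Reachable y y' := by
  intro hr
  have hb := (SimpleGraph.isAcyclic_iff_forall_adj_isBridge.1 hH) hy
  rw [SimpleGraph.isBridge_iff] at hb
  apply hb
  have h1 : H' ≤ H.deleteEdges {s(z, y)} := by
    intro a b hab
    rw [SimpleGraph.deleteEdges_adj]
    refine ⟨hle hab, ?_⟩
    simp only [mem_singleton_iff, Sym2.eq_iff, not_or, not_and]
    constructor
    · rintro rfl; exact absurd hab (hz _)
    · rintro rfl rfl; exact absurd hab.symm (hz _)
  have h2 : (H.deleteEdges {s(z, y)}).Adj z y' := by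
    rw [SimpleGraph.deleteEdges_adj]
    refine ⟨hy', ?_⟩
    simp only [mem_singleton_iff, Sym2.eq_iff, not_or, not_and]
    constructor
    · intro _ h; exact hne h.symm
    · rintro h _; exact hy.ne h
  exact h2.reachable.trans ((hr.mono h1).symm)

/-- A graph with a parent function increasing a rank is acyclic. -/
lemma isAcyclic_of_parent {V : Type} {H : SimpleGraph V} (p : V → V) (r : V → ℕ)
    (h : ∀ a b, H.Adj a b → (r a < r b ∧ p a = b) ∨ (r b < r a ∧ p b = a)) : H.IsAcyclic := by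
  classical
  intro v c hc
  obtain ⟨a, ha, hmin⟩ := Finset.exists_min_image c.support.toFinset r
    ⟨v, by simp⟩
  have ha' : a ∈ c.support := by simpa using ha
  have hc' := hc.rotate ha'
  set c' := c.rotate a ha' with hc'def
  have hsub : ∀ b ∈ c'.support, r a ≤ r b := by
    intro b hb
    apply hmin
    rw [List.mem_toFinset]
    exact (SimpleGraph.Walk.mem_support_rotate_iff c a ha').1 hb
  have h1 : H.Adj a c'.snd := c'.adj_snd hc'.not_nil
  have h2 : H.Adj c'.penultimate a := c'.adj_penultimate hc'.not_nil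
  have h3 : p a = c'.snd := by
    rcases h _ _ h1 with h' | h'
    · exact h'.2
    · exact absurd h'.1 (not_lt.2 (hsub _ (c'.getVert_mem_support _)))
  have h4 : p a = c'.penultimate := by
    rcases h _ _ h2 with h' | h'
    · exact absurd h'.1 (not_lt.2 (hsub _ (c'.getVert_mem_support _)))
    · exact h'.2
  exact hc'.snd_ne_penultimate (h3.symm.trans h4)

/-! ### Expectations over independent coin flips -/

section Coins

variable {E : Type} [Fintype E] [DecidableEq E] (p : E → ℝ)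

/-- The probability of an outcome of independent coin flips. -/
noncomputable def wt (ω : E → Bool) : ℝ := ∏ e, (if ω e then p e else 1 - p e)

/-- Expectation over independent coin flips. -/
noncomputable def EE (f : (E → Bool) → ℝ) : ℝ := ∑ ω, wt p ω * f ω

lemma wt_nonneg (h0 : ∀ e, 0 ≤ p e) (h1 : ∀ e, p e ≤ 1) (ω : E → Bool) : 0 ≤ wt p ω := by
  unfold wt
  apply Finset.prod_nonneg
  intro e _
  split_ifs
  · exact h0 e
  · linarith [h1 e]

lemma sum_prod_bool {R : Type*} [CommSemiring R] (h : E → Bool → R) :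
    ∑ ω : E → Bool, ∏ e, h e (ω e) = ∏ e, (h e true + h e false) := by
  have := Finset.prod_univ_sum (fun _ : E => (Finset.univ : Finset Bool)) h
  rw [Fintype.piFinset_univ] at this
  rw [← this]
  apply Finset.prod_congr rfl
  intro e _
  simp

lemma sum_wt : ∑ ω, wt p ω = 1 := by
  unfold wt
  have := sum_prod_bool (fun e b => if b then p e else 1 - p e)
  rw [this]
  simp

lemma EE_const (c : ℝ) : EE p (fun _ => c) = c := by
  unfold EE
  rw [← Finset.sum_mul, sum_wt, one_mul]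

lemma EE_add (f g : (E → Bool) → ℝ) : EE p (fun ω => f ω + g ω) = EE p f + EE p g := by
  unfold EE
  rw [← Finset.sum_add_distrib]
  exact Finset.sum_congr rfl (fun ω _ => by ring)

lemma EE_sub (f g : (E → Bool) → ℝ) : EE p (fun ω => f ω - g ω) = EE p f - EE p g := by
  unfold EE
  rw [← Finset.sum_sub_distrib]
  exact Finset.sum_congr rfl (fun ω _ => by ring)

lemma EE_mul (c : ℝ) (f : (E → Bool) → ℝ) : EE p (fun ω => c * f ω) = c * EE p f := by
  unfold EE
  rw [Finset.mul_sum]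
  exact Finset.sum_congr rfl (fun ω _ => by ring)

lemma EE_sum {J : Type*} (s : Finset J) (f : J → (E → Bool) → ℝ) :
    EE p (fun ω => ∑ j ∈ s, f j ω) = ∑ j ∈ s, EE p (f j) := by
  unfold EE
  simp_rw [Finset.mul_sum]
  exact Finset.sum_comm

lemma EE_mono (h0 : ∀ e, 0 ≤ p e) (h1 : ∀ e, p e ≤ 1) {f g : (E → Bool) → ℝ}
    (h : ∀ ω, f ω ≤ g ω) : EE p f ≤ EE p g :=
  Finset.sum_le_sum (fun ω _ => mul_le_mul_of_nonneg_left (h ω) (wt_nonneg p h0 h1 ω))

lemma EE_nonneg (h0 : ∀ e, 0 ≤ p e) (h1 : ∀ e, p e ≤ 1) {f : (E → Bool) → ℝ}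
    (h : ∀ ω, 0 ≤ f ω) : 0 ≤ EE p f :=
  Finset.sum_nonneg (fun ω _ => mul_nonneg (wt_nonneg p h0 h1 ω) (h ω))

/-- The indicator of the coin `e` showing heads. -/
def hd (ω : E → Bool) (e : E) : ℝ := if ω e then 1 else 0

lemma hd_nonneg (ω : E → Bool) (e : E) : 0 ≤ hd ω e := by
  unfold hd; split_ifs <;> norm_num

lemma hd_le_one (ω : E → Bool) (e : E) : hd ω e ≤ 1 := by
  unfold hd; split_ifs <;> norm_num

lemma EE_hd_mul (e₀ : E) (g : (E → Bool) → ℝ)
    (hg : ∀ ω b, g (Function.update ω e₀ b) = g ω) :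
    EE p (fun ω => hd ω e₀ * g ω) = p e₀ * EE p g := by
  have key : ∑ ω, wt p ω * ((hd ω e₀ - p e₀) * g ω) = 0 := by
    apply Finset.sum_involution (s := (Finset.univ : Finset (E → Bool)))
      (fun ω _ => Function.update ω e₀ (!ω e₀))
    · intro ω _
      rw [hg]
      have hprod : ∀ ω : E → Bool, wt p ω = (if ω e₀ then p e₀ else 1 - p e₀) *
          ∏ e ∈ Finset.univ.erase e₀, (if ω e then p e else 1 - p e) := by
        intro ω
        unfold wt
        rw [Finset.mul_prod_erase Finset.univ (fun e => if ω e then p e else 1 - p e)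
          (Finset.mem_univ e₀)]
      rw [hprod ω, hprod (Function.update ω e₀ (!ω e₀))]
      have h2 : ∏ e ∈ Finset.univ.erase e₀,
          (if (Function.update ω e₀ (!ω e₀)) e then p e else 1 - p e) =
          ∏ e ∈ Finset.univ.erase e₀, (if ω e then p e else 1 - p e) := by
        apply Finset.prod_congr rfl
        intro e he
        rw [Function.update_of_ne (Finset.ne_of_mem_erase he)]
      rw [h2]
      unfold hd
      rw [Function.update_self]
      cases hω : ω e₀ <;> simp <;> ring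
    · intro ω _ _ h
      have := congrFun h e₀
      rw [Function.update_self] at this
      cases hω : ω e₀ <;> rw [hω] at this <;> simp at this
    · intro ω _; exact Finset.mem_univ _
    · intro ω _
      simp
  have h3 : EE p (fun ω => hd ω e₀ * g ω) - p e₀ * EE p g =
      ∑ ω, wt p ω * ((hd ω e₀ - p e₀) * g ω) := by
    unfold EE
    rw [Finset.mul_sum, ← Finset.sum_sub_distrib]
    exact Finset.sum_congr rfl (fun ω _ => by ring)
  linarith

lemma EE_hd (e₀ : E) : EE p (fun ω => hd ω e₀) = p e₀ := by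
  have := EE_hd_mul p e₀ (fun _ => 1) (fun _ _ => rfl)
  simp only [mul_one] at this
  rw [this, EE_const, mul_one]

lemma EE_hd_hd {e e' : E} (h : e ≠ e') : EE p (fun ω => hd ω e * hd ω e') = p e * p e' := by
  rw [EE_hd_mul p e (fun ω => hd ω e') (fun ω b => by
    unfold hd; rw [Function.update_of_ne h.symm]), EE_hd]

/-- The probability that in no pair of a family of disjoint pairs both coins show heads. -/
lemma EE_no_pair {W : Type*} [DecidableEq W] (O : Finset W) (f g : W → E) (hf : Function.Injective f)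
    (hg : Function.Injective g) (hfg : ∀ w w', f w ≠ g w') (q : ℝ) (hpf : ∀ w, p (f w) = q)
    (hpg : ∀ w, p (g w) = q) :
    EE p (fun ω => ∏ w ∈ O, (1 - hd ω (f w) * hd ω (g w))) = (1 - q ^ 2) ^ O.card := by
  induction O using Finset.induction_on with
  | empty => simp [EE_const]
  | insert w O hw ih =>
    simp_rw [Finset.prod_insert hw]
    rw [Finset.card_insert_of_notMem hw]
    have h1 : ∀ ω : E → Bool, ∀ e b, (∀ w ∈ O, f w ≠ e) → (∀ w ∈ O, g w ≠ e) →
        ∏ w ∈ O, (1 - hd (Function.update ω e b) (f w) * hd (Function.update ω e b) (g w)) =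
        ∏ w ∈ O, (1 - hd ω (f w) * hd ω (g w)) := by
      intro ω e b h h'
      apply Finset.prod_congr rfl
      intro w' hw'
      unfold hd
      rw [Function.update_of_ne (h w' hw'), Function.update_of_ne (h' w' hw')]
    have h2 : ∀ w' ∈ O, w' ≠ w := fun w' hw' h => hw (h ▸ hw')
    have h3 : EE p (fun ω => (1 - hd ω (f w) * hd ω (g w)) *
        ∏ w ∈ O, (1 - hd ω (f w) * hd ω (g w))) =
        EE p (fun ω => ∏ w ∈ O, (1 - hd ω (f w) * hd ω (g w))) -
        EE p (fun ω => hd ω (f w) * (hd ω (g w) *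
          ∏ w ∈ O, (1 - hd ω (f w) * hd ω (g w)))) := by
      rw [← EE_sub]
      congr 1
      funext ω
      ring
    rw [h3, EE_hd_mul p (f w), EE_hd_mul p (g w), ih, hpf, hpg]
    · ring
    · intro ω b
      exact h1 ω _ b (fun w' hw' => hfg w' w) (fun w' hw' h => h2 w' hw' (hg h))
    · intro ω b
      rw [h1 ω _ b (fun w' hw' h => h2 w' hw' (hf h)) (fun w' hw' h => hfg w w' h.symm)]
      congr 1
      unfold hd
      rw [Function.update_of_ne (fun h => hfg w w h.symm)]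

end Coins

/-! ### Two-valued laws -/

section TwoValued

variable {E : Type} [Fintype E] [DecidableEq E]

/-- The law of a random variable with value `v` with probability `p` and `0` otherwise. -/
noncomputable def twoLaw (p : ℝ) (v : ℝ≥0) : Measure ℝ≥0 :=
  ENNReal.ofReal p • Measure.dirac v + ENNReal.ofReal (1 - p) • Measure.dirac 0

lemma twoLaw_prob {p : ℝ} (h0 : 0 ≤ p) (h1 : p ≤ 1) (v : ℝ≥0) :
    IsProbabilityMeasure (twoLaw p v) := by
  constructor
  unfold twoLaw
  simp only [Measure.coe_add, Measure.coe_smul, Pi.add_apply, Pi.smul_apply, measure_univ,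
    smul_eq_mul, mul_one]
  rw [← ENNReal.ofReal_add h0 (by linarith)]
  simp

lemma twoLaw_mean (p : ℝ) (v : ℝ≥0) : ∫⁻ t, (t : ℝ≥0∞) ∂(twoLaw p v) ≠ ∞ := by
  unfold twoLaw
  rw [lintegral_add_measure, lintegral_smul_measure, lintegral_smul_measure,
    lintegral_dirac, lintegral_dirac]
  simp only [smul_eq_mul, ENNReal.coe_zero, mul_zero, add_zero]
  exact ENNReal.mul_ne_top ENNReal.ofReal_ne_top ENNReal.coe_ne_top

/-- The value of the variables for a given outcome of the coin flips. -/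
def valOf (v : E → ℝ≥0) (ω : E → Bool) (e : E) : ℝ≥0 := if ω e then v e else 0

lemma pi_twoLaw {p : E → ℝ} (h0 : ∀ e, 0 ≤ p e) (h1 : ∀ e, p e ≤ 1) (v : E → ℝ≥0) :
    Measure.pi (fun e => twoLaw (p e) (v e)) =
      ∑ ω : E → Bool, ENNReal.ofReal (wt p ω) • Measure.dirac (valOf v ω) := by
  classical
  have : ∀ e, IsProbabilityMeasure (twoLaw (p e) (v e)) := fun e => twoLaw_prob (h0 e) (h1 e) _
  apply Measure.pi_eq
  intro s hs
  rw [Measure.finsetSum_apply]
  have hL : ∀ ω : E → Bool,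
      (ENNReal.ofReal (wt p ω) • Measure.dirac (valOf v ω) : Measure (E → ℝ≥0)) (Set.univ.pi s) =
      ∏ e, ((if ω e then ENNReal.ofReal (p e) else ENNReal.ofReal (1 - p e)) *
        (if valOf v ω e ∈ s e then 1 else 0)) := by
    intro ω
    rw [Measure.smul_apply, Measure.dirac_apply' _ (MeasurableSet.univ_pi hs), smul_eq_mul,
      Finset.prod_mul_distrib]
    congr 1
    · unfold wt
      rw [ENNReal.ofReal_prod_of_nonneg]
      · apply Finset.prod_congr rfl
        intro e _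
        split_ifs <;> rfl
      · intro e _
        split_ifs
        · exact h0 e
        · linarith [h1 e]
    · by_cases hmem : valOf v ω ∈ Set.univ.pi s
      · rw [indicator_of_mem hmem]
        symm
        apply Finset.prod_eq_one
        intro e _
        rw [if_pos (hmem e (Set.mem_univ e))]
      · rw [indicator_of_notMem hmem]
        rw [Set.mem_univ_pi, not_forall] at hmem
        obtain ⟨e, he⟩ := hmem
        symm
        apply Finset.prod_eq_zero (Finset.mem_univ e)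
        rw [if_neg he]
  rw [Finset.sum_congr rfl (fun ω _ => hL ω)]
  have hR := sum_prod_bool (E := E) (R := ℝ≥0∞) (fun e b =>
    (if b then ENNReal.ofReal (p e) else ENNReal.ofReal (1 - p e)) *
        (if (if b then v e else 0) ∈ s e then 1 else 0))
  have hR' : ∀ ω : E → Bool, (∏ e, ((if ω e then ENNReal.ofReal (p e) else
      ENNReal.ofReal (1 - p e)) * (if valOf v ω e ∈ s e then 1 else 0)) : ℝ≥0∞) =
      ∏ e, ((if ω e then ENNReal.ofReal (p e) else ENNReal.ofReal (1 - p e)) *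
        (if (if ω e then v e else 0) ∈ s e then 1 else 0)) := fun ω => rfl
  rw [Finset.sum_congr rfl (fun ω _ => hR' ω), hR]
  apply Finset.prod_congr rfl
  intro e _
  unfold twoLaw
  rw [Measure.add_apply, Measure.smul_apply, Measure.smul_apply,
    Measure.dirac_apply' _ (hs e), Measure.dirac_apply' _ (hs e)]
  simp only [if_true, smul_eq_mul, Set.indicator_apply, Pi.one_apply]
  simp

lemma lintegral_pi_twoLaw {p : E → ℝ} (h0 : ∀ e, 0 ≤ p e) (h1 : ∀ e, p e ≤ 1) (v : E → ℝ≥0)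
    (f : (E → ℝ≥0) → ℝ≥0∞) :
    ∫⁻ x, f x ∂Measure.pi (fun e => twoLaw (p e) (v e)) =
      ∑ ω : E → Bool, ENNReal.ofReal (wt p ω) * f (valOf v ω) := by
  rw [pi_twoLaw h0 h1, lintegral_finsetSum_measure]
  apply Finset.sum_congr rfl
  intro ω _
  rw [lintegral_smul_measure, lintegral_dirac, smul_eq_mul]

end TwoValued

/-! ### The instance -/

/-- The complete bipartite graph with parts of size `k` and `n + 2`. -/
abbrev GG (k n : ℕ) : SimpleGraph (Fin k ⊕ (Fin n ⊕ Bool)) :=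
  completeBipartiteGraph (Fin k) (Fin n ⊕ Bool)

/-- The edge joining `y` and `z`. -/
def ed {k n : ℕ} (y : Fin k) (z : Fin n ⊕ Bool) : (GG k n).edgeSet :=
  ⟨s(Sum.inl y, Sum.inr z), by rw [SimpleGraph.mem_edgeSet]; simp⟩

lemma ed_inj {k n : ℕ} {y y' : Fin k} {z z' : Fin n ⊕ Bool} :
    ed y z = ed y' z' ↔ y = y' ∧ z = z' := by
  unfold ed
  rw [Subtype.mk.injEq, Sym2.eq_iff]
  simp

lemma ed_surj {k n : ℕ} (e : (GG k n).edgeSet) : ∃ y z, e = ed y z := by
  obtain ⟨s, hs⟩ := e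
  induction s using Sym2.ind with
  | _ a b =>
    rw [SimpleGraph.mem_edgeSet] at hs
    rcases a with y | z <;> rcases b with y' | z'
    · simp at hs
    · exact ⟨y, z', rfl⟩
    · exact ⟨y', z, Subtype.ext Sym2.eq_swap⟩
    · simp at hs

/-- Edges as pairs. -/
noncomputable def edEquiv (k n : ℕ) : Fin k × (Fin n ⊕ Bool) ≃ (GG k n).edgeSet :=
  Equiv.ofBijective (fun q => ed q.1 q.2)
    ⟨fun q q' h => Prod.ext (ed_inj.1 h).1 (ed_inj.1 h).2,
     fun e => by obtain ⟨y, z, h⟩ := ed_surj e; exact ⟨(y, z), h.symm⟩⟩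

/-- The right endpoint of an edge. -/
noncomputable def rt {k n : ℕ} (e : (GG k n).edgeSet) : Fin n ⊕ Bool := ((edEquiv k n).symm e).2

lemma rt_ed {k n : ℕ} (y : Fin k) (z : Fin n ⊕ Bool) : rt (ed y z) = z := by
  unfold rt
  have : ed y z = edEquiv k n (y, z) := rfl
  rw [this, Equiv.symm_apply_apply]

/-- The probability that an edge has a nonzero value, by its right endpoint. -/
def pr {n : ℕ} (δ ε : ℝ) : Fin n ⊕ Bool → ℝ
  | Sum.inl _ => δ
  | Sum.inr false => 1
  | Sum.inr true => ε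

/-- The nonzero value of an edge, by its right endpoint. -/
def vl {n : ℕ} (β a b : ℝ≥0) : Fin n ⊕ Bool → ℝ≥0
  | Sum.inl _ => β
  | Sum.inr false => a
  | Sum.inr true => b

/-- First phase. -/
def L0 (k n : ℕ) : List (GG k n).edgeSet :=
  ((List.finRange k).product (List.finRange n)).map (fun q => ed q.1 (Sum.inl q.2))

/-- Second phase. -/
def L1 (k n : ℕ) : List (GG k n).edgeSet := (List.finRange k).map (fun y => ed y (Sum.inr false))

/-- Third phase. -/
def L2 (k n : ℕ) : List (GG k n).edgeSet := (List.finRange k).map (fun y => ed y (Sum.inr true))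

lemma mem_L0 {k n : ℕ} {e : (GG k n).edgeSet} : e ∈ L0 k n ↔ ∃ y w, e = ed y (Sum.inl w) := by
  unfold L0
  simp only [List.mem_map, Prod.exists]
  constructor
  · rintro ⟨y, w, _, h⟩; exact ⟨y, w, h.symm⟩
  · rintro ⟨y, w, h⟩; exact ⟨y, w, by simp, h.symm⟩

lemma mem_L1 {k n : ℕ} {e : (GG k n).edgeSet} : e ∈ L1 k n ↔ ∃ y, e = ed y (Sum.inr false) := by
  unfold L1
  simp only [List.mem_map, List.mem_finRange, true_and]
  constructor
  · rintro ⟨y, h⟩; exact ⟨y, h.symm⟩
  · rintro ⟨y, h⟩; exact ⟨y, h.symm⟩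

lemma mem_L2 {k n : ℕ} {e : (GG k n).edgeSet} : e ∈ L2 k n ↔ ∃ y, e = ed y (Sum.inr true) := by
  unfold L2
  simp only [List.mem_map, List.mem_finRange, true_and]
  constructor
  · rintro ⟨y, h⟩; exact ⟨y, h.symm⟩
  · rintro ⟨y, h⟩; exact ⟨y, h.symm⟩

lemma order_nodup_aux (k n : ℕ) : (L0 k n ++ (L1 k n ++ L2 k n)).Nodup := by
  rw [List.nodup_append, List.nodup_append]
  refine ⟨?_, ⟨?_, ?_, ?_⟩, ?_⟩
  · apply List.Nodup.map
    · intro q q' h
      have := ed_inj.1 h
      exact Prod.ext this.1 (Sum.inl_injective this.2)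
    · exact (List.nodup_finRange k).product (List.nodup_finRange n)
  · exact List.Nodup.map (fun y y' h => (ed_inj.1 h).1) (List.nodup_finRange k)
  · exact List.Nodup.map (fun y y' h => (ed_inj.1 h).1) (List.nodup_finRange k)
  · intro e he e' he' h
    subst h
    rw [mem_L1] at he
    rw [mem_L2] at he'
    obtain ⟨y, h1⟩ := he
    obtain ⟨y', h2⟩ := he'
    rw [h1] at h2
    have := (ed_inj.1 h2).2
    simp at this
  · intro e he e' he' h
    subst h
    rw [mem_L0] at he
    rw [List.mem_append, mem_L1, mem_L2] at he'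
    obtain ⟨y, w, h1⟩ := he
    rcases he' with ⟨y', h2⟩ | ⟨y', h2⟩
    · rw [h1] at h2
      have := (ed_inj.1 h2).2
      simp at this
    · rw [h1] at h2
      have := (ed_inj.1 h2).2
      simp at this

lemma order_complete_aux (k n : ℕ) (e : (GG k n).edgeSet) : e ∈ L0 k n ++ (L1 k n ++ L2 k n) := by
  rw [List.mem_append, List.mem_append, mem_L0, mem_L1, mem_L2]
  obtain ⟨y, z, h⟩ := ed_surj e
  rcases z with w | b
  · left; exact ⟨y, w, h⟩
  · cases b
    · right; left; exact ⟨y, h⟩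
    · right; right; exact ⟨y, h⟩

/-- Parameters of the construction. -/
structure Par where
  /-- the number of hubs -/
  k : ℕ
  /-- the number of leaves -/
  n : ℕ
  /-- probability of the first-phase edges -/
  δ : ℝ
  /-- probability of the third-phase edges -/
  ε : ℝ
  hk : 0 < k
  hn : 0 < n
  hδ : 0 < δ
  hδ1 : δ ≤ 1
  hε : 0 < ε
  hε1 : ε ≤ 1

namespace Par

variable (P : Par)

/-- value of first-phase edges -/
noncomputable def β : ℝ≥0 := Real.toNNReal (1 / (P.n * P.k * P.δ))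
/-- value of second-phase edges -/
noncomputable def a : ℝ≥0 := Real.toNNReal (1 / P.k)
/-- value of third-phase edges -/
noncomputable def b : ℝ≥0 := Real.toNNReal (1 / (P.ε * P.k))

lemma k_pos : (0 : ℝ) < P.k := by exact_mod_cast P.hk
lemma n_pos : (0 : ℝ) < P.n := by exact_mod_cast P.hn

lemma coe_β : (P.β : ℝ) = 1 / (P.n * P.k * P.δ) :=
  Real.coe_toNNReal _ (by have := P.k_pos; have := P.n_pos; have := P.hδ; positivity)
lemma coe_a : (P.a : ℝ) = 1 / P.k :=
  Real.coe_toNNReal _ (by have := P.k_pos; positivity)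
lemma coe_b : (P.b : ℝ) = 1 / (P.ε * P.k) :=
  Real.coe_toNNReal _ (by have := P.k_pos; have := P.hε; positivity)

lemma pr_nonneg (z : Fin P.n ⊕ Bool) : 0 ≤ pr P.δ P.ε z := by
  rcases z with w | b
  · exact P.hδ.le
  · cases b
    · exact zero_le_one
    · exact P.hε.le

lemma pr_le_one (z : Fin P.n ⊕ Bool) : pr P.δ P.ε z ≤ 1 := by
  rcases z with w | b
  · exact P.hδ1
  · cases b
    · exact le_refl _
    · exact P.hε1

/-- The instance. -/
noncomputable def inst : Instance where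
  V := Fin P.k ⊕ (Fin P.n ⊕ Bool)
  fin := inferInstance
  G := GG P.k P.n
  law e := twoLaw (pr P.δ P.ε (rt e)) (vl P.β P.a P.b (rt e))
  prob _ := twoLaw_prob (P.pr_nonneg _) (P.pr_le_one _) _
  finite_mean _ := twoLaw_mean _ _
  order := L0 P.k P.n ++ (L1 P.k P.n ++ L2 P.k P.n)
  order_nodup := order_nodup_aux _ _
  order_complete := order_complete_aux _ _

/-- The edges of the instance. -/
abbrev E : Type := P.inst.G.edgeSet

/-- probability of the edge -/
noncomputable def p (e : P.E) : ℝ := pr P.δ P.ε (rt e)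
/-- value of the edge -/
noncomputable def v (e : P.E) : ℝ≥0 := vl P.β P.a P.b (rt e)

lemma p_nonneg (e : P.E) : 0 ≤ P.p e := P.pr_nonneg _
lemma p_le_one (e : P.E) : P.p e ≤ 1 := P.pr_le_one _

/-- first-phase edge -/
def ew (y : Fin P.k) (w : Fin P.n) : P.E := ed y (Sum.inl w)
/-- second-phase edge -/
def eu (y : Fin P.k) : P.E := ed y (Sum.inr false)
/-- third-phase edge -/
def ev (y : Fin P.k) : P.E := ed y (Sum.inr true)

lemma p_ew (y : Fin P.k) (w : Fin P.n) : P.p (P.ew y w) = P.δ := by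
  unfold p ew; rw [rt_ed]; rfl
lemma p_eu (y : Fin P.k) : P.p (P.eu y) = 1 := by
  unfold p eu; rw [rt_ed]; rfl
lemma p_ev (y : Fin P.k) : P.p (P.ev y) = P.ε := by
  unfold p ev; rw [rt_ed]; rfl
lemma v_ew (y : Fin P.k) (w : Fin P.n) : P.v (P.ew y w) = P.β := by
  unfold v ew; rw [rt_ed]; rfl
lemma v_eu (y : Fin P.k) : P.v (P.eu y) = P.a := by
  unfold v eu; rw [rt_ed]; rfl
lemma v_ev (y : Fin P.k) : P.v (P.ev y) = P.b := by
  unfold v ev; rw [rt_ed]; rfl

lemma lintegral_joint (f : (P.E → ℝ≥0) → ℝ≥0∞) :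
    ∫⁻ x, f x ∂P.inst.joint = ∑ ω : P.E → Bool, ENNReal.ofReal (wt P.p ω) * f (valOf P.v ω) :=
  lintegral_pi_twoLaw P.p_nonneg P.p_le_one P.v f

/-- A sum over edges splits into the three phases. -/
lemma sum_edges (f : P.E → ℝ) : ∑ e, f e =
    (∑ y, ∑ w, f (P.ew y w)) + (∑ y, f (P.eu y)) + (∑ y, f (P.ev y)) := by
  have h1 : ∑ e, f e = ∑ q : Fin P.k × (Fin P.n ⊕ Bool), f (ed q.1 q.2) := by
    let φ : Fin P.k × (Fin P.n ⊕ Bool) ≃ P.E := edEquiv P.k P.n
    exact (Fintype.sum_equiv φ (fun q => f (ed q.1 q.2)) f (fun q => rfl)).symm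
  rw [h1, Fintype.sum_prod_type]
  simp only [Fintype.sum_sum_type, Fintype.sum_bool, Finset.sum_add_distrib]
  unfold ew eu ev
  ring

/-! ### Structure of the accepted forest -/

section Alg

variable (T : P.E → {t : EReal // t ≠ ⊥})

/-- first-phase edges in order -/
def l0 : List P.E := L0 P.k P.n
/-- second-phase edges in order -/
def l1 : List P.E := L1 P.k P.n
/-- third-phase edges in order -/
def l2 : List P.E := L2 P.k P.n

lemma mem_l0 {e : P.E} : e ∈ P.l0 ↔ ∃ y w, e = P.ew y w := mem_L0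
lemma mem_l1 {e : P.E} : e ∈ P.l1 ↔ ∃ y, e = P.eu y := mem_L1
lemma mem_l2 {e : P.E} : e ∈ P.l2 ↔ ∃ y, e = P.ev y := mem_L2
lemma order_eq : P.inst.order = P.l0 ++ (P.l1 ++ P.l2) := rfl

/-- edges accepted in the first phase -/
noncomputable def acc1 (ω : P.E → Bool) : Finset P.E :=
  P.inst.run T (valOf P.v ω) P.l0 ∅

/-- edges accepted in the first two phases -/
noncomputable def acc2 (ω : P.E → Bool) : Finset P.E :=
  P.inst.run T (valOf P.v ω) P.l1 (P.acc1 T ω)

/-- edges accepted in all three phases -/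
noncomputable def acc3 (ω : P.E → Bool) : Finset P.E :=
  P.inst.run T (valOf P.v ω) P.l2 (P.acc2 T ω)

lemma run_order (ω : P.E → Bool) : P.inst.run T (valOf P.v ω) P.inst.order ∅ = P.acc3 T ω := by
  rw [order_eq, Instance.run_append, Instance.run_append]
  rfl

lemma acc1_forest (ω : P.E → Bool) : P.inst.IsForest (P.acc1 T ω) :=
  P.inst.run_isForest T _ _ P.inst.isForest_empty

lemma acc2_forest (ω : P.E → Bool) : P.inst.IsForest (P.acc2 T ω) :=
  P.inst.run_isForest T _ _ (P.acc1_forest T ω)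

lemma acc3_forest (ω : P.E → Bool) : P.inst.IsForest (P.acc3 T ω) :=
  P.inst.run_isForest T _ _ (P.acc2_forest T ω)

lemma acc12 (ω : P.E → Bool) : P.acc1 T ω ⊆ P.acc2 T ω := P.inst.subset_run T _ _ _
lemma acc23 (ω : P.E → Bool) : P.acc2 T ω ⊆ P.acc3 T ω := P.inst.subset_run T _ _ _

lemma mem_acc1 {ω : P.E → Bool} {e : P.E} (he : e ∈ P.acc1 T ω) :
    (∃ y w, e = P.ew y w) ∧ (T e : EReal) ≤ ((valOf P.v ω e : ℝ) : EReal) := by
  rcases P.inst.mem_run T _ _ _ he with h | h
  · simp at h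
  · exact ⟨P.mem_l0.1 h.1, h.2⟩

lemma mem_acc2 {ω : P.E → Bool} {e : P.E} (he : e ∈ P.acc2 T ω) :
    e ∈ P.acc1 T ω ∨ ∃ y, e = P.eu y := by
  rcases P.inst.mem_run T _ _ _ he with h | h
  · exact Or.inl h
  · exact Or.inr (P.mem_l1.1 h.1)

lemma mem_acc3 {ω : P.E → Bool} {e : P.E} (he : e ∈ P.acc3 T ω) :
    e ∈ P.acc2 T ω ∨ ∃ y, e = P.ev y := by
  rcases P.inst.mem_run T _ _ _ he with h | h
  · exact Or.inl h
  · exact Or.inr (P.mem_l2.1 h.1)

/-- the vertex `u` -/
def uu : P.inst.V := (Sum.inr (Sum.inr false) : Fin P.k ⊕ (Fin P.n ⊕ Bool))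
/-- the vertex `v` -/
def vv : P.inst.V := (Sum.inr (Sum.inr true) : Fin P.k ⊕ (Fin P.n ⊕ Bool))
/-- the hub `y` -/
def hub (y : Fin P.k) : P.inst.V := (Sum.inl y : Fin P.k ⊕ (Fin P.n ⊕ Bool))
/-- the leaf `w` -/
def leaf (w : Fin P.n) : P.inst.V := (Sum.inr (Sum.inl w) : Fin P.k ⊕ (Fin P.n ⊕ Bool))

lemma hub_inj {y y' : Fin P.k} (h : P.hub y = P.hub y') : y = y' := Sum.inl_injective h

lemma coe_ew (y : Fin P.k) (w : Fin P.n) :
    ((P.ew y w : P.E) : Sym2 P.inst.V) = s(P.hub y, P.leaf w) := rfl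
lemma coe_eu (y : Fin P.k) : ((P.eu y : P.E) : Sym2 P.inst.V) = s(P.hub y, P.uu) := rfl
lemma coe_ev (y : Fin P.k) : ((P.ev y : P.E) : Sym2 P.inst.V) = s(P.hub y, P.vv) := rfl

lemma ew_inj {y y' : Fin P.k} {w w' : Fin P.n} (h : P.ew y w = P.ew y' w') : y = y' ∧ w = w' := by
  have := ed_inj.1 h
  exact ⟨this.1, Sum.inl_injective this.2⟩
lemma eu_inj {y y' : Fin P.k} (h : P.eu y = P.eu y') : y = y' := (ed_inj.1 h).1
lemma ev_inj {y y' : Fin P.k} (h : P.ev y = P.ev y') : y = y' := (ed_inj.1 h).1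
lemma ew_ne_eu {y y' : Fin P.k} {w : Fin P.n} : P.ew y w ≠ P.eu y' := fun h => by
  have := (ed_inj.1 h).2
  simp at this
lemma ew_ne_ev {y y' : Fin P.k} {w : Fin P.n} : P.ew y w ≠ P.ev y' := fun h => by
  have := (ed_inj.1 h).2
  simp at this
lemma eu_ne_ev {y y' : Fin P.k} : P.eu y ≠ P.ev y' := fun h => by
  have := (ed_inj.1 h).2
  simp at this

lemma not_adj_uu1 (ω : P.E → Bool) (c : P.inst.V) : ¬ (P.inst.graph (P.acc1 T ω)).Adj P.uu c := by
  rw [Instance.graph_adj]
  rintro ⟨e, he, hs⟩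
  obtain ⟨⟨y, w, rfl⟩, _⟩ := P.mem_acc1 T he
  rw [coe_ew, Sym2.eq_iff] at hs
  rcases hs with ⟨h, _⟩ | ⟨_, h⟩
  · exact Sum.inl_ne_inr h
  · exact Sum.inl_ne_inr (Sum.inr_injective h)

lemma not_adj_vv2 (ω : P.E → Bool) (c : P.inst.V) : ¬ (P.inst.graph (P.acc2 T ω)).Adj P.vv c := by
  rw [Instance.graph_adj]
  rintro ⟨e, he, hs⟩
  rcases P.mem_acc2 T he with h1 | ⟨y, rfl⟩
  · obtain ⟨⟨y, w, rfl⟩, _⟩ := P.mem_acc1 T h1
    rw [coe_ew, Sym2.eq_iff] at hs
    rcases hs with ⟨h, _⟩ | ⟨_, h⟩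
    · exact Sum.inl_ne_inr h
    · exact Sum.inl_ne_inr (Sum.inr_injective h)
  · rw [coe_eu, Sym2.eq_iff] at hs
    rcases hs with ⟨h, _⟩ | ⟨_, h⟩
    · exact Sum.inl_ne_inr h
    · exact absurd (Sum.inr_injective (Sum.inr_injective h)) (by simp)

lemma adj_uu {F : Finset P.E} {y : Fin P.k} (h : P.eu y ∈ F) :
    (P.inst.graph F).Adj P.uu (P.hub y) := by
  rw [Instance.graph_adj]
  exact ⟨_, h, by rw [coe_eu]; exact Sym2.eq_swap⟩

lemma adj_vv {F : Finset P.E} {y : Fin P.k} (h : P.ev y ∈ F) :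
    (P.inst.graph F).Adj P.vv (P.hub y) := by
  rw [Instance.graph_adj]
  exact ⟨_, h, by rw [coe_ev]; exact Sym2.eq_swap⟩

open Classical in
/-- The hubs joined to `y` by edges of `A`. -/
noncomputable def cls (A : Finset P.E) (y : Fin P.k) : Finset (Fin P.k) :=
  Finset.univ.filter (fun y' => (P.inst.graph A).Reachable (P.hub y) (P.hub y'))

lemma mem_cls {A : Finset P.E} {y y' : Fin P.k} :
    y' ∈ P.cls A y ↔ (P.inst.graph A).Reachable (P.hub y) (P.hub y') := by
  unfold cls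
  simp

lemma exists_big (A : Finset P.E) : ∃ y, ∀ y', (P.cls A y').card ≤ (P.cls A y).card := by
  obtain ⟨y, _, hy⟩ := Finset.exists_max_image Finset.univ (fun y => (P.cls A y).card)
    ⟨⟨0, P.hk⟩, Finset.mem_univ _⟩
  exact ⟨y, fun y' => hy y' (Finset.mem_univ _)⟩

/-- A largest class of mutually joined hubs. -/
noncomputable def big (A : Finset P.E) : Finset (Fin P.k) := P.cls A (P.exists_big A).choose

lemma card_cls_le (A : Finset P.E) (y : Fin P.k) : (P.cls A y).card ≤ (P.big A).card :=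
  (P.exists_big A).choose_spec y

lemma big_reachable {A : Finset P.E} {y y' : Fin P.k} (h : y ∈ P.big A) (h' : y' ∈ P.big A) :
    (P.inst.graph A).Reachable (P.hub y) (P.hub y') :=
  ((P.mem_cls).1 h).symm.trans ((P.mem_cls).1 h')

open Classical in
/-- The hubs joined directly to `u`. -/
noncomputable def UU (A : Finset P.E) : Finset (Fin P.k) :=
  Finset.univ.filter (fun y => P.eu y ∈ A)

open Classical in
/-- The hubs joined directly to `v`. -/
noncomputable def ZZ (A : Finset P.E) : Finset (Fin P.k) :=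
  Finset.univ.filter (fun y => P.ev y ∈ A)

lemma mem_UU {A : Finset P.E} {y : Fin P.k} : y ∈ P.UU A ↔ P.eu y ∈ A := by simp [UU]
lemma mem_ZZ {A : Finset P.E} {y : Fin P.k} : y ∈ P.ZZ A ↔ P.ev y ∈ A := by simp [ZZ]

lemma card_U_inter_D (ω : P.E → Bool) :
    (P.UU (P.acc2 T ω) ∩ P.big (P.acc1 T ω)).card ≤ 1 := by
  rw [Finset.card_le_one]
  intro y hy y' hy'
  rw [Finset.mem_inter, mem_UU] at hy hy'
  by_contra hne
  exact not_reachable_of_isAcyclic (P.acc2_forest T ω) (P.inst.graph_mono (P.acc12 T ω))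
    (P.not_adj_uu1 T ω) (P.adj_uu hy.1) (P.adj_uu hy'.1) (fun h => hne (P.hub_inj h))
    (P.big_reachable hy.2 hy'.2)

lemma card_Z_inter_D (ω : P.E → Bool) :
    (P.ZZ (P.acc3 T ω) ∩ P.big (P.acc1 T ω)).card ≤ 1 := by
  rw [Finset.card_le_one]
  intro y hy y' hy'
  rw [Finset.mem_inter, mem_ZZ] at hy hy'
  by_contra hne
  exact not_reachable_of_isAcyclic (P.acc3_forest T ω) (P.inst.graph_mono (P.acc23 T ω))
    (P.not_adj_vv2 T ω) (P.adj_vv hy.1) (P.adj_vv hy'.1) (fun h => hne (P.hub_inj h))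
    ((P.big_reachable hy.2 hy'.2).mono (P.inst.graph_mono (P.acc12 T ω)))

lemma card_Z_inter_U (ω : P.E → Bool) :
    (P.ZZ (P.acc3 T ω) ∩ P.UU (P.acc2 T ω)).card ≤ 1 := by
  rw [Finset.card_le_one]
  intro y hy y' hy'
  rw [Finset.mem_inter, mem_ZZ, mem_UU] at hy hy'
  by_contra hne
  exact not_reachable_of_isAcyclic (P.acc3_forest T ω) (P.inst.graph_mono (P.acc23 T ω))
    (P.not_adj_vv2 T ω) (P.adj_vv hy.1) (P.adj_vv hy'.1) (fun h => hne (P.hub_inj h))
    ((P.adj_uu hy.2).symm.reachable.trans (P.adj_uu hy'.2).reachable)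

/-- Two hubs with an active leaf showing heads on both sides are joined after phase one. -/
lemma reach_of_pair {ω : P.E → Bool} {y y' : Fin P.k} {w : Fin P.n}
    (h : ω (P.ew y w) = true) (h' : ω (P.ew y' w) = true)
    (hT : (T (P.ew y w) : EReal) ≤ ((P.β : ℝ) : EReal))
    (hT' : (T (P.ew y' w) : EReal) ≤ ((P.β : ℝ) : EReal)) :
    (P.inst.graph (P.acc1 T ω)).Reachable (P.hub y) (P.hub y') := by
  have h1 : ∀ {y : Fin P.k}, ω (P.ew y w) = true →
      (T (P.ew y w) : EReal) ≤ ((P.β : ℝ) : EReal) →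
      (P.inst.graph (P.acc1 T ω)).Reachable (P.hub y) (P.leaf w) := by
    intro y hy hTy
    apply P.inst.run_reachable T (valOf P.v ω) P.l0 P.inst.isForest_empty
      (e := P.ew y w) (P.mem_l0.2 ⟨y, w, rfl⟩)
    · have : valOf P.v ω (P.ew y w) = P.β := by
        unfold valOf
        rw [if_pos hy, v_ew]
      rw [this]
      exact hTy
    · exact P.coe_ew y w
  exact (h1 h hT).trans (h1 h' hT').symm

lemma acc1_update (ω : P.E → Bool) (y : Fin P.k) (c : Bool) :
    P.acc1 T (Function.update ω (P.ev y) c) = P.acc1 T ω := by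
  apply P.inst.run_congr
  intro e he
  obtain ⟨y', w, rfl⟩ := P.mem_l0.1 he
  unfold valOf
  rw [Function.update_of_ne P.ew_ne_ev]

lemma acc2_update (ω : P.E → Bool) (y : Fin P.k) (c : Bool) :
    P.acc2 T (Function.update ω (P.ev y) c) = P.acc2 T ω := by
  unfold acc2
  rw [acc1_update]
  apply P.inst.run_congr
  intro e he
  obtain ⟨y', rfl⟩ := P.mem_l1.1 he
  unfold valOf
  rw [Function.update_of_ne P.eu_ne_ev]

/-! ### Upper bound for the algorithm -/

open Classical in
/-- Indicator of the first-phase edge being active. -/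
noncomputable def ac (y : Fin P.k) (w : Fin P.n) : ℝ :=
  if (T (P.ew y w) : EReal) ≤ ((P.β : ℝ) : EReal) then 1 else 0

lemma ac_nonneg (y : Fin P.k) (w : Fin P.n) : 0 ≤ P.ac T y w := by
  unfold ac; split_ifs <;> norm_num

lemma ac_le_one (y : Fin P.k) (w : Fin P.n) : P.ac T y w ≤ 1 := by
  unfold ac; split_ifs <;> norm_num

lemma valOf_coe (ω : P.E → Bool) (e : P.E) :
    ((valOf P.v ω e : ℝ≥0) : ℝ) = (P.v e : ℝ) * hd ω e := by
  unfold valOf hd
  split_ifs <;> simp

/-- Total accepted value as a real number. -/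
noncomputable def algR (ω : P.E → Bool) : ℝ := ∑ e ∈ P.acc3 T ω, ((valOf P.v ω e : ℝ≥0) : ℝ)

lemma alg_eq (ω : P.E → Bool) :
    P.inst.alg T (valOf P.v ω) = ENNReal.ofReal (P.algR T ω) := by
  unfold Instance.alg algR
  rw [run_order, ENNReal.ofReal_sum_of_nonneg (fun e _ => NNReal.coe_nonneg _)]
  simp

open Classical in
/-- Indicator of being outside of the big class and of the neighbours of `u`. -/
noncomputable def ind (ω : P.E → Bool) (y : Fin P.k) : ℝ :=
  if y ∈ P.big (P.acc1 T ω) ∪ P.UU (P.acc2 T ω) then 0 else 1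

lemma ind_nonneg (ω : P.E → Bool) (y : Fin P.k) : 0 ≤ P.ind T ω y := by
  unfold ind; split_ifs <;> norm_num

lemma algR_le (ω : P.E → Bool) : P.algR T ω ≤
    (∑ y, ∑ w, (P.β : ℝ) * (P.ac T y w * hd ω (P.ew y w))) +
    (P.a : ℝ) * ((P.UU (P.acc2 T ω)).card : ℝ) +
    (P.b : ℝ) * (2 + ∑ y, hd ω (P.ev y) * P.ind T ω y) := by
  classical
  have h0 : P.algR T ω = ∑ e, if e ∈ P.acc3 T ω then (P.v e : ℝ) * hd ω e else 0 := by
    unfold algR
    rw [Finset.sum_ite_mem, Finset.univ_inter]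
    exact Finset.sum_congr rfl (fun e _ => P.valOf_coe ω e)
  rw [h0, P.sum_edges]
  have hβ : (0 : ℝ) ≤ P.β := NNReal.coe_nonneg _
  have ha : (0 : ℝ) ≤ P.a := NNReal.coe_nonneg _
  have hb : (0 : ℝ) ≤ P.b := NNReal.coe_nonneg _
  refine add_le_add (add_le_add ?_ ?_) ?_
  · refine Finset.sum_le_sum (fun y _ => Finset.sum_le_sum (fun w _ => ?_))
    split_ifs with h
    · rw [v_ew]
      refine mul_le_mul_of_nonneg_left ?_ hβ
      by_cases hω : ω (P.ew y w) = true
      · have h1 : P.ac T y w = 1 := by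
          unfold ac
          rw [if_pos]
          rcases P.mem_acc3 T h with h2 | ⟨y', h2⟩
          · rcases P.mem_acc2 T h2 with h3 | ⟨y', h3⟩
            · have h4 := (P.mem_acc1 T h3).2
              unfold valOf at h4
              rwa [if_pos hω, v_ew] at h4
            · exact absurd h3 P.ew_ne_eu
          · exact absurd h2 P.ew_ne_ev
        rw [h1, one_mul]
      · have h1 : hd ω (P.ew y w) = 0 := by
          unfold hd; rw [if_neg hω]
        rw [h1, mul_zero]
    · exact mul_nonneg hβ (mul_nonneg (P.ac_nonneg T y w) (hd_nonneg _ _))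
  · have h1 : ((P.UU (P.acc2 T ω)).card : ℝ) = ∑ y, if P.eu y ∈ P.acc2 T ω then 1 else 0 := by
      unfold UU
      rw [Finset.card_filter]
      push_cast
      rfl
    rw [h1, Finset.mul_sum]
    refine Finset.sum_le_sum (fun y _ => ?_)
    split_ifs with h h2 h2
    · rw [v_eu]
      exact mul_le_mul_of_nonneg_left (hd_le_one _ _) ha
    · exfalso
      apply h2
      rcases P.mem_acc3 T h with h3 | ⟨y', h3⟩
      · exact h3
      · exact absurd h3 P.eu_ne_ev
    · rw [mul_one]; exact ha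
    · rw [mul_zero]
  · have h1 : ∀ y, (if P.ev y ∈ P.acc3 T ω then (P.v (P.ev y) : ℝ) * hd ω (P.ev y) else 0) ≤
        (P.b : ℝ) * ((if y ∈ P.ZZ (P.acc3 T ω) ∩ P.big (P.acc1 T ω) then 1 else 0) +
          (if y ∈ P.ZZ (P.acc3 T ω) ∩ P.UU (P.acc2 T ω) then 1 else 0) +
          hd ω (P.ev y) * P.ind T ω y) := by
      intro y
      have hi := P.ind_nonneg T ω y
      have hh := hd_nonneg ω (P.ev y)
      have hh1 := hd_le_one ω (P.ev y)
      have hhi := mul_nonneg hh hi
      by_cases h : P.ev y ∈ P.acc3 T ω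
      · rw [if_pos h, v_ev]
        refine mul_le_mul_of_nonneg_left ?_ hb
        by_cases hD : y ∈ P.big (P.acc1 T ω)
        · rw [if_pos (Finset.mem_inter.2 ⟨P.mem_ZZ.2 h, hD⟩)]
          have : (0 : ℝ) ≤ (if y ∈ P.ZZ (P.acc3 T ω) ∩ P.UU (P.acc2 T ω) then 1 else 0) := by
            split_ifs <;> norm_num
          linarith
        · by_cases hU : y ∈ P.UU (P.acc2 T ω)
          · rw [if_pos (Finset.mem_inter.2 ⟨P.mem_ZZ.2 h, hU⟩)]
            have : (0 : ℝ) ≤ (if y ∈ P.ZZ (P.acc3 T ω) ∩ P.big (P.acc1 T ω) then 1 else 0) := by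
              split_ifs <;> norm_num
            linarith
          · have h2 : P.ind T ω y = 1 := by
              unfold ind
              rw [if_neg]
              rw [Finset.mem_union]
              tauto
            rw [h2, mul_one]
            have h3 : (0 : ℝ) ≤ (if y ∈ P.ZZ (P.acc3 T ω) ∩ P.UU (P.acc2 T ω) then 1 else 0) := by
              split_ifs <;> norm_num
            have h4 : (0 : ℝ) ≤ (if y ∈ P.ZZ (P.acc3 T ω) ∩ P.big (P.acc1 T ω) then 1 else 0) := by
              split_ifs <;> norm_num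
            linarith
      · rw [if_neg h]
        refine mul_nonneg hb ?_
        have h3 : (0 : ℝ) ≤ (if y ∈ P.ZZ (P.acc3 T ω) ∩ P.UU (P.acc2 T ω) then 1 else 0) := by
          split_ifs <;> norm_num
        have h4 : (0 : ℝ) ≤ (if y ∈ P.ZZ (P.acc3 T ω) ∩ P.big (P.acc1 T ω) then 1 else 0) := by
          split_ifs <;> norm_num
        linarith
    refine (Finset.sum_le_sum (fun y _ => h1 y)).trans ?_
    rw [← Finset.mul_sum, Finset.sum_add_distrib, Finset.sum_add_distrib]
    refine mul_le_mul_of_nonneg_left ?_ hb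
    have h5 : ∀ s : Finset (Fin P.k), s.card ≤ 1 →
        (∑ y, if y ∈ s then (1 : ℝ) else 0) ≤ 1 := by
      intro s hs
      rw [Finset.sum_boole]
      have : (Finset.univ.filter (fun y => y ∈ s)) = s := by ext; simp
      rw [this]
      exact_mod_cast hs
    have h6 := h5 _ (P.card_Z_inter_D T ω)
    have h7 := h5 _ (P.card_Z_inter_U T ω)
    linarith

/-- Expected size of the big class. -/
noncomputable def M : ℝ := EE P.p (fun ω => ((P.big (P.acc1 T ω)).card : ℝ))

/-- Number of active first-phase edges. -/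
noncomputable def S : ℝ := ∑ w, ∑ y, P.ac T y w

lemma M_nonneg : 0 ≤ P.M T :=
  EE_nonneg _ P.p_nonneg P.p_le_one (fun _ => Nat.cast_nonneg _)

lemma S_nonneg : 0 ≤ P.S T :=
  Finset.sum_nonneg (fun w _ => Finset.sum_nonneg (fun y _ => P.ac_nonneg T y w))

lemma card_bound (ω : P.E → Bool) :
    ((P.UU (P.acc2 T ω)).card : ℝ) + ∑ y, P.ind T ω y ≤
      P.k + 1 - ((P.big (P.acc1 T ω)).card : ℝ) := by
  classical
  have h1 : ∑ y, P.ind T ω y =
      (P.k : ℝ) - ((P.big (P.acc1 T ω) ∪ P.UU (P.acc2 T ω)).card : ℝ) := by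
    unfold ind
    have h2 : ∀ y : Fin P.k, (if y ∈ P.big (P.acc1 T ω) ∪ P.UU (P.acc2 T ω) then (0 : ℝ) else 1) =
        1 - (if y ∈ P.big (P.acc1 T ω) ∪ P.UU (P.acc2 T ω) then 1 else 0) := by
      intro y; split_ifs <;> norm_num
    rw [Finset.sum_congr rfl (fun y _ => h2 y), Finset.sum_sub_distrib, Finset.sum_boole]
    have : (Finset.univ.filter (fun y => y ∈ P.big (P.acc1 T ω) ∪ P.UU (P.acc2 T ω))) =
        P.big (P.acc1 T ω) ∪ P.UU (P.acc2 T ω) := by ext; simp
    rw [this]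
    simp
  have h3 := Finset.card_union_add_card_inter (P.big (P.acc1 T ω)) (P.UU (P.acc2 T ω))
  have h4 := P.card_U_inter_D T ω
  rw [Finset.inter_comm] at h4
  have h5 : (((P.big (P.acc1 T ω) ∪ P.UU (P.acc2 T ω)).card : ℝ)) +
      ((P.big (P.acc1 T ω) ∩ P.UU (P.acc2 T ω)).card : ℝ) =
      ((P.big (P.acc1 T ω)).card : ℝ) + ((P.UU (P.acc2 T ω)).card : ℝ) := by exact_mod_cast h3
  have h6 : ((P.big (P.acc1 T ω) ∩ P.UU (P.acc2 T ω)).card : ℝ) ≤ 1 := by exact_mod_cast h4
  rw [h1]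
  linarith

lemma EE_algR_le : EE P.p (P.algR T) ≤
    P.S T / (P.n * P.k) + 2 / (P.ε * P.k) + (P.k + 1 - P.M T) / P.k := by
  have hk := P.k_pos
  have hn := P.n_pos
  have hδ := P.hδ
  have hε := P.hε
  refine (EE_mono P.p P.p_nonneg P.p_le_one (P.algR_le T)).trans ?_
  rw [EE_add, EE_add, EE_mul, EE_mul]
  have h1 : EE P.p (fun ω => ∑ y, ∑ w, (P.β : ℝ) * (P.ac T y w * hd ω (P.ew y w))) =
      P.S T / (P.n * P.k) := by
    rw [EE_sum]
    have : ∀ y, EE P.p (fun ω => ∑ w, (P.β : ℝ) * (P.ac T y w * hd ω (P.ew y w))) =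
        ∑ w, (P.β : ℝ) * (P.ac T y w * P.δ) := by
      intro y
      rw [EE_sum]
      refine Finset.sum_congr rfl (fun w _ => ?_)
      rw [EE_mul, EE_mul, EE_hd, p_ew]
    rw [Finset.sum_congr rfl (fun y _ => this y), Finset.sum_comm]
    unfold S
    rw [Finset.sum_div]
    refine Finset.sum_congr rfl (fun w _ => ?_)
    rw [Finset.sum_div]
    refine Finset.sum_congr rfl (fun y _ => ?_)
    rw [coe_β]
    field_simp
  have h2 : EE P.p (fun ω => 2 + ∑ y, hd ω (P.ev y) * P.ind T ω y) =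
      2 + P.ε * EE P.p (fun ω => ∑ y, P.ind T ω y) := by
    rw [EE_add, EE_const, EE_sum, EE_sum, Finset.mul_sum]
    congr 1
    refine Finset.sum_congr rfl (fun y _ => ?_)
    rw [EE_hd_mul, p_ev]
    intro ω c
    unfold ind
    rw [acc1_update, acc2_update]
  rw [h1, h2]
  have h3 : EE P.p (fun ω => ((P.UU (P.acc2 T ω)).card : ℝ)) +
      EE P.p (fun ω => ∑ y, P.ind T ω y) ≤ P.k + 1 - P.M T := by
    unfold M
    rw [← EE_add, ← EE_const P.p ((P.k : ℝ) + 1), ← EE_sub]
    exact EE_mono P.p P.p_nonneg P.p_le_one (P.card_bound T)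
  rw [coe_a, coe_b]
  have h4 : (1 / (P.ε * P.k) : ℝ) * (2 + P.ε * EE P.p (fun ω => ∑ y, P.ind T ω y)) =
      2 / (P.ε * P.k) + (1 / P.k) * EE P.p (fun ω => ∑ y, P.ind T ω y) := by
    field_simp
  rw [h4]
  have h5 : (1 / P.k : ℝ) * (EE P.p (fun ω => ((P.UU (P.acc2 T ω)).card : ℝ)) +
      EE P.p (fun ω => ∑ y, P.ind T ω y)) ≤ (1 / P.k) * (P.k + 1 - P.M T) :=
    mul_le_mul_of_nonneg_left h3 (by positivity)
  have h6 : (1 / P.k : ℝ) * (P.k + 1 - P.M T) = (P.k + 1 - P.M T) / P.k := by ring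
  linarith

open Classical in
/-- Leaves active for both hubs. -/
noncomputable def OO (y y' : Fin P.k) : Finset (Fin P.n) :=
  Finset.univ.filter (fun w => (T (P.ew y w) : EReal) ≤ ((P.β : ℝ) : EReal) ∧
    (T (P.ew y' w) : EReal) ≤ ((P.β : ℝ) : EReal))

lemma sum_ac_mul (y y' : Fin P.k) : ∑ w, P.ac T y w * P.ac T y' w = ((P.OO T y y').card : ℝ) := by
  classical
  unfold OO
  rw [Finset.card_filter]
  push_cast
  refine Finset.sum_congr rfl (fun w _ => ?_)
  unfold ac
  by_cases h : (T (P.ew y w) : EReal) ≤ ((P.β : ℝ) : EReal)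
  · by_cases h' : (T (P.ew y' w) : EReal) ≤ ((P.β : ℝ) : EReal)
    · simp [h, h']
    · simp [h, h']
  · simp [h]

open Classical in
/-- Upper bound for the indicator that two hubs are not joined. -/
noncomputable def NN (y y' : Fin P.k) (ω : P.E → Bool) : ℝ :=
  if y = y' then 0 else ∏ w ∈ P.OO T y y', (1 - hd ω (P.ew y w) * hd ω (P.ew y' w))

lemma prod_nonneg_aux (y y' : Fin P.k) (ω : P.E → Bool) :
    0 ≤ ∏ w ∈ P.OO T y y', (1 - hd ω (P.ew y w) * hd ω (P.ew y' w)) := by
  apply Finset.prod_nonneg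
  intro w _
  have h1 := hd_nonneg ω (P.ew y w)
  have h2 := hd_nonneg ω (P.ew y' w)
  have h3 := hd_le_one ω (P.ew y w)
  have h4 := hd_le_one ω (P.ew y' w)
  nlinarith

lemma NN_nonneg (y y' : Fin P.k) (ω : P.E → Bool) : 0 ≤ P.NN T y y' ω := by
  unfold NN
  split_ifs
  · exact le_refl _
  · exact P.prod_nonneg_aux T y y' ω

lemma EE_NN_le (y y' : Fin P.k) :
    EE P.p (P.NN T y y') ≤ (1 - P.δ ^ 2) ^ (P.OO T y y').card := by
  have hδ := P.hδ
  have hδ1 := P.hδ1
  by_cases h : y = y'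
  · have : P.NN T y y' = fun _ => 0 := by
      funext ω
      unfold NN
      rw [if_pos h]
    rw [this, EE_const]
    apply pow_nonneg
    nlinarith
  · have : P.NN T y y' = fun ω =>
        ∏ w ∈ P.OO T y y', (1 - hd ω (P.ew y w) * hd ω (P.ew y' w)) := by
      funext ω
      unfold NN
      rw [if_neg h]
    rw [this]
    apply le_of_eq
    apply EE_no_pair P.p (P.OO T y y') (fun w => P.ew y w) (fun w => P.ew y' w)
    · intro w w' hw; exact (P.ew_inj hw).2
    · intro w w' hw; exact (P.ew_inj hw).2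
    · intro w w' hw; exact h (P.ew_inj hw).1
    · intro w; exact P.p_ew y w
    · intro w; exact P.p_ew y' w

lemma bernoulli_aux {q : ℝ} (h0 : 0 < q) (h1 : q ≤ 1) (o : ℕ) :
    (o : ℝ) * (1 - q) ^ o ≤ 1 / q := by
  rw [le_div_iff₀ h0]
  have h2 : 1 + (o : ℝ) * q ≤ (1 + q) ^ o := one_add_mul_le_pow (by linarith) o
  have h3 : (1 - q) ^ o * (1 + q) ^ o ≤ 1 := by
    rw [← mul_pow]
    apply pow_le_one₀
    · nlinarith
    · nlinarith
  have h4 : (0 : ℝ) ≤ (1 - q) ^ o := pow_nonneg (by linarith) o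
  nlinarith

open Classical in
/-- Indicator that two hubs are joined. -/
noncomputable def rel (y y' : Fin P.k) (ω : P.E → Bool) : ℝ :=
  if (P.inst.graph (P.acc1 T ω)).Reachable (P.hub y) (P.hub y') then 1 else 0

lemma one_sub_NN_le (y y' : Fin P.k) (ω : P.E → Bool) :
    1 - P.NN T y y' ω ≤ P.rel T y y' ω := by
  classical
  have hN := P.NN_nonneg T y y' ω
  unfold rel
  split_ifs with h
  · linarith
  · have hne : y ≠ y' := fun h' => h (h' ▸ SimpleGraph.Reachable.refl _)
    have : P.NN T y y' ω = 1 := by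
      unfold NN
      rw [if_neg hne]
      apply Finset.prod_eq_one
      intro w hw
      unfold OO at hw
      rw [Finset.mem_filter] at hw
      by_cases h1 : ω (P.ew y w) = true
      · by_cases h2 : ω (P.ew y' w) = true
        · exact absurd (P.reach_of_pair T h1 h2 hw.2.1 hw.2.2) h
        · unfold hd
          rw [if_neg h2, mul_zero, sub_zero]
      · unfold hd
        rw [if_neg h1, zero_mul, sub_zero]
    linarith

lemma sum_rel_le (y : Fin P.k) (ω : P.E → Bool) :
    ∑ y', P.rel T y y' ω ≤ ((P.big (P.acc1 T ω)).card : ℝ) := by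
  classical
  have h1 : ∑ y', P.rel T y y' ω = ((P.cls (P.acc1 T ω) y).card : ℝ) := by
    unfold cls
    rw [Finset.card_filter]
    push_cast
    rfl
  rw [h1]
  exact_mod_cast P.card_cls_le _ y

lemma pointwise (ω : P.E → Bool) :
    ∑ w, ∑ y, ∑ y', P.ac T y w * P.ac T y' w * (1 - P.NN T y y' ω) ≤
      P.S T * ((P.big (P.acc1 T ω)).card : ℝ) := by
  unfold S
  rw [Finset.sum_mul]
  refine Finset.sum_le_sum (fun w _ => ?_)
  rw [Finset.sum_mul]
  refine Finset.sum_le_sum (fun y _ => ?_)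
  have h1 : ∀ y', P.ac T y w * P.ac T y' w * (1 - P.NN T y y' ω) ≤
      P.ac T y w * P.rel T y y' ω := by
    intro y'
    rw [mul_assoc]
    refine mul_le_mul_of_nonneg_left ?_ (P.ac_nonneg T y w)
    have h2 := P.one_sub_NN_le T y y' ω
    have h3 := P.ac_nonneg T y' w
    have h4 := P.ac_le_one T y' w
    have h5 : 0 ≤ P.rel T y y' ω := by
      unfold rel; split_ifs <;> norm_num
    calc P.ac T y' w * (1 - P.NN T y y' ω) ≤ P.ac T y' w * P.rel T y y' ω :=
          mul_le_mul_of_nonneg_left h2 h3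
      _ ≤ 1 * P.rel T y y' ω := mul_le_mul_of_nonneg_right h4 h5
      _ = _ := one_mul _
  refine (Finset.sum_le_sum (fun y' _ => h1 y')).trans ?_
  rw [← Finset.mul_sum]
  exact mul_le_mul_of_nonneg_left (P.sum_rel_le T y ω) (P.ac_nonneg T y w)

lemma main_ineq : P.S T ^ 2 / P.n - P.k ^ 2 / P.δ ^ 2 ≤ P.S T * P.M T := by
  have hk := P.k_pos
  have hn := P.n_pos
  have hδ := P.hδ
  have hδ1 := P.hδ1
  have h1 : EE P.p (fun ω => ∑ w, ∑ y, ∑ y', P.ac T y w * P.ac T y' w * (1 - P.NN T y y' ω)) ≤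
      P.S T * P.M T := by
    unfold M
    rw [← EE_mul]
    exact EE_mono P.p P.p_nonneg P.p_le_one (P.pointwise T)
  refine le_trans ?_ h1
  have h2 : EE P.p (fun ω => ∑ w, ∑ y, ∑ y', P.ac T y w * P.ac T y' w * (1 - P.NN T y y' ω)) =
      ∑ w, ∑ y, ∑ y', P.ac T y w * P.ac T y' w * (1 - EE P.p (P.NN T y y')) := by
    rw [EE_sum]
    refine Finset.sum_congr rfl (fun w _ => ?_)
    rw [EE_sum]
    refine Finset.sum_congr rfl (fun y _ => ?_)
    rw [EE_sum]
    refine Finset.sum_congr rfl (fun y' _ => ?_)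
    rw [EE_mul, EE_sub, EE_const]
  rw [h2]
  have h3 : ∑ w, ∑ y, ∑ y', P.ac T y w * P.ac T y' w * (1 - EE P.p (P.NN T y y')) =
      ∑ w, (∑ y, P.ac T y w) ^ 2 -
        ∑ y, ∑ y', ((P.OO T y y').card : ℝ) * EE P.p (P.NN T y y') := by
    have h4 : ∑ y, ∑ y', ((P.OO T y y').card : ℝ) * EE P.p (P.NN T y y') =
        ∑ w, ∑ y, ∑ y', P.ac T y w * P.ac T y' w * EE P.p (P.NN T y y') := by
      symm
      rw [Finset.sum_comm]
      refine Finset.sum_congr rfl (fun y _ => ?_)
      rw [Finset.sum_comm]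
      refine Finset.sum_congr rfl (fun y' _ => ?_)
      rw [← P.sum_ac_mul T, Finset.sum_mul]
    rw [h4, ← Finset.sum_sub_distrib]
    refine Finset.sum_congr rfl (fun w _ => ?_)
    rw [sq, Finset.sum_mul_sum, ← Finset.sum_sub_distrib]
    refine Finset.sum_congr rfl (fun y _ => ?_)
    rw [← Finset.sum_sub_distrib]
    refine Finset.sum_congr rfl (fun y' _ => ?_)
    ring
  rw [h3]
  have h5 : P.S T ^ 2 / P.n ≤ ∑ w, (∑ y, P.ac T y w) ^ 2 := by
    have := sq_sum_le_card_mul_sum_sq (s := (Finset.univ : Finset (Fin P.n)))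
      (f := fun w => ∑ y, P.ac T y w)
    rw [Finset.card_univ, Fintype.card_fin] at this
    rw [div_le_iff₀ hn, mul_comm]
    exact this
  have h6 : ∑ y, ∑ y', ((P.OO T y y').card : ℝ) * EE P.p (P.NN T y y') ≤ P.k ^ 2 / P.δ ^ 2 := by
    have h7 : ∀ y y', ((P.OO T y y').card : ℝ) * EE P.p (P.NN T y y') ≤ 1 / P.δ ^ 2 := by
      intro y y'
      refine (mul_le_mul_of_nonneg_left (P.EE_NN_le T y y') (Nat.cast_nonneg _)).trans ?_
      exact bernoulli_aux (by positivity) (by nlinarith) _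
    refine (Finset.sum_le_sum (fun y _ => Finset.sum_le_sum (fun y' _ => h7 y y'))).trans ?_
    simp only [Finset.sum_const, Finset.card_univ, Fintype.card_fin, nsmul_eq_mul]
    apply le_of_eq
    field_simp
  linarith

/-- The algorithm gets little more than `1`. -/
lemma EE_alg_bound {t : ℝ} (ht : 0 < t) (htn : 1 ≤ t ^ 2 * P.n * P.δ ^ 2) :
    EE P.p (P.algR T) ≤ 1 + t + 2 / (P.ε * P.k) + 1 / P.k := by
  have hk := P.k_pos
  have hn := P.n_pos
  have hδ := P.hδ
  have hM := P.M_nonneg T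
  have hS := P.S_nonneg T
  refine (P.EE_algR_le T).trans ?_
  have key : P.S T / (P.n * P.k) - P.M T / P.k ≤ t := by
    by_cases hcase : P.S T / (P.n * P.k) ≤ t
    · have : 0 ≤ P.M T / P.k := by positivity
      linarith
    · push Not at hcase
      have hSpos : 0 < P.S T := by
        rcases hS.lt_or_eq with h | h
        · exact h
        · rw [← h] at hcase
          simp at hcase
          linarith
      have h1 := P.main_ineq T
      have h2 : P.S T / P.n - P.k ^ 2 / (P.δ ^ 2 * P.S T) ≤ P.M T := by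
        have : P.S T / P.n - P.k ^ 2 / (P.δ ^ 2 * P.S T) =
            (P.S T ^ 2 / P.n - P.k ^ 2 / P.δ ^ 2) / P.S T := by
          field_simp
        rw [this, div_le_iff₀ hSpos]
        linarith
      have h3 : t * (P.n * P.k) < P.S T := by
        rwa [lt_div_iff₀ (by positivity)] at hcase
      have h4 : P.k ^ 2 / (P.δ ^ 2 * P.S T) ≤ t * P.k := by
        rw [div_le_iff₀ (by positivity)]
        have h5 : (P.k : ℝ) ^ 2 * 1 ≤ P.k ^ 2 * (t ^ 2 * P.n * P.δ ^ 2) :=
          mul_le_mul_of_nonneg_left htn (by positivity)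
        have h6 : t * P.k * (P.δ ^ 2 * (t * (P.n * P.k))) ≤ t * P.k * (P.δ ^ 2 * P.S T) := by
          refine mul_le_mul_of_nonneg_left ?_ (by positivity)
          exact mul_le_mul_of_nonneg_left h3.le (by positivity)
        calc (P.k : ℝ) ^ 2 = P.k ^ 2 * 1 := by ring
          _ ≤ P.k ^ 2 * (t ^ 2 * P.n * P.δ ^ 2) := h5
          _ = t * P.k * (P.δ ^ 2 * (t * (P.n * P.k))) := by ring
          _ ≤ _ := h6
      have h7 : P.S T / (P.n * P.k) - P.M T / P.k = (P.S T / P.n - P.M T) / P.k := by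
        field_simp
      rw [h7, div_le_iff₀ hk]
      linarith
  have h8 : (P.k + 1 - P.M T) / P.k = 1 + 1 / P.k - P.M T / P.k := by
    field_simp
  rw [h8]
  linarith

end Alg

/-! ### Lower bound for the prophet -/

section Opt

open Classical in
/-- A hub whose edge to the leaf `w` shows heads, if there is one. -/
noncomputable def ch (ω : P.E → Bool) (w : Fin P.n) : Fin P.k :=
  if h : ∃ y, ω (P.ew y w) = true then h.choose else ⟨0, P.hk⟩

lemma ch_spec {ω : P.E → Bool} {w : Fin P.n} (h : ∃ y, ω (P.ew y w) = true) :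
    ω (P.ew (P.ch ω w) w) = true := by
  unfold ch
  rw [dif_pos h]
  exact h.choose_spec

/-- Parent function of the prophet's forest. -/
noncomputable def par (ω : P.E → Bool) : P.inst.V → P.inst.V := fun x =>
  match (x : Fin P.k ⊕ (Fin P.n ⊕ Bool)) with
  | Sum.inl y => if ω (P.ev y) then P.vv else P.uu
  | Sum.inr (Sum.inl w) => P.hub (P.ch ω w)
  | Sum.inr (Sum.inr _) => P.uu

/-- Rank function of the prophet's forest. -/
def rk : P.inst.V → ℕ := fun x =>
  match (x : Fin P.k ⊕ (Fin P.n ⊕ Bool)) with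
  | Sum.inl _ => 1
  | Sum.inr (Sum.inl _) => 0
  | Sum.inr (Sum.inr _) => 2

lemma par_hub (ω : P.E → Bool) (y : Fin P.k) :
    P.par ω (P.hub y) = if ω (P.ev y) then P.vv else P.uu := rfl
lemma par_leaf (ω : P.E → Bool) (w : Fin P.n) : P.par ω (P.leaf w) = P.hub (P.ch ω w) := rfl
lemma rk_hub (y : Fin P.k) : P.rk (P.hub y) = 1 := rfl
lemma rk_leaf (w : Fin P.n) : P.rk (P.leaf w) = 0 := rfl
lemma rk_uu : P.rk P.uu = 2 := rfl
lemma rk_vv : P.rk P.vv = 2 := rfl

open Classical in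
/-- The prophet's forest. -/
noncomputable def FF (ω : P.E → Bool) : Finset P.E :=
  Finset.univ.filter (fun e => (∃ w, e = P.ew (P.ch ω w) w) ∨
    (∃ y, e = P.eu y ∧ ω (P.ev y) = false) ∨ (∃ y, e = P.ev y ∧ ω (P.ev y) = true))

lemma mem_FF {ω : P.E → Bool} {e : P.E} : e ∈ P.FF ω ↔ (∃ w, e = P.ew (P.ch ω w) w) ∨
    (∃ y, e = P.eu y ∧ ω (P.ev y) = false) ∨ (∃ y, e = P.ev y ∧ ω (P.ev y) = true) := by
  simp [FF]

lemma FF_forest (ω : P.E → Bool) : P.inst.IsForest (P.FF ω) := by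
  apply isAcyclic_of_parent (P.par ω) P.rk
  intro c d hcd
  rw [Instance.graph_adj] at hcd
  obtain ⟨e, he, hs⟩ := hcd
  rw [mem_FF] at he
  rcases he with ⟨w, rfl⟩ | ⟨y, rfl, hy⟩ | ⟨y, rfl, hy⟩
  · rw [coe_ew, Sym2.eq_iff] at hs
    rcases hs with ⟨rfl, rfl⟩ | ⟨rfl, rfl⟩
    · right
      rw [rk_leaf, rk_hub, par_leaf]
      exact ⟨one_pos, rfl⟩
    · left
      rw [rk_leaf, rk_hub, par_leaf]
      exact ⟨one_pos, rfl⟩
  · rw [coe_eu, Sym2.eq_iff] at hs
    rcases hs with ⟨rfl, rfl⟩ | ⟨rfl, rfl⟩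
    · left
      rw [rk_uu, rk_hub, par_hub, hy]
      exact ⟨by norm_num, rfl⟩
    · right
      rw [rk_uu, rk_hub, par_hub, hy]
      exact ⟨by norm_num, rfl⟩
  · rw [coe_ev, Sym2.eq_iff] at hs
    rcases hs with ⟨rfl, rfl⟩ | ⟨rfl, rfl⟩
    · left
      rw [rk_vv, rk_hub, par_hub, hy]
      exact ⟨by norm_num, rfl⟩
    · right
      rw [rk_vv, rk_hub, par_hub, hy]
      exact ⟨by norm_num, rfl⟩

/-- Value of the prophet's forest. -/
noncomputable def optR (ω : P.E → Bool) : ℝ := ∑ e ∈ P.FF ω, ((valOf P.v ω e : ℝ≥0) : ℝ)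

lemma opt_ge (ω : P.E → Bool) : ENNReal.ofReal (P.optR ω) ≤ P.inst.opt (valOf P.v ω) := by
  unfold optR Instance.opt
  rw [ENNReal.ofReal_sum_of_nonneg (fun e _ => NNReal.coe_nonneg _)]
  refine le_iSup₂_of_le (P.FF ω) (P.FF_forest ω) ?_
  simp

open Classical in
/-- A lower bound for the indicator that the leaf `w` has an edge showing heads. -/
lemma hd_ch_ge (ω : P.E → Bool) (w : Fin P.n) :
    (∑ y, hd ω (P.ew y w)) -
      ∑ y, ∑ y', (if y = y' then 0 else hd ω (P.ew y w) * hd ω (P.ew y' w)) ≤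
      hd ω (P.ew (P.ch ω w) w) := by
  have h1 : ∑ y, ∑ y', (if y = y' then 0 else hd ω (P.ew y w) * hd ω (P.ew y' w)) =
      (∑ y, hd ω (P.ew y w)) ^ 2 - ∑ y, hd ω (P.ew y w) := by
    rw [sq, Finset.sum_mul_sum, ← Finset.sum_sub_distrib]
    refine Finset.sum_congr rfl (fun y _ => ?_)
    have h2 : ∀ y', (if y = y' then 0 else hd ω (P.ew y w) * hd ω (P.ew y' w)) =
        hd ω (P.ew y w) * hd ω (P.ew y' w) -
          (if y = y' then hd ω (P.ew y w) * hd ω (P.ew y' w) else 0) := by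
      intro y'
      split_ifs <;> ring
    rw [Finset.sum_congr rfl (fun y' _ => h2 y'), Finset.sum_sub_distrib]
    congr 1
    rw [Finset.sum_ite_eq Finset.univ y (fun y' => hd ω (P.ew y w) * hd ω (P.ew y' w)),
      if_pos (Finset.mem_univ _)]
    unfold hd
    split_ifs <;> norm_num
  rw [h1]
  by_cases h : ∃ y, ω (P.ew y w) = true
  · have h3 : hd ω (P.ew (P.ch ω w) w) = 1 := by
      unfold hd; rw [if_pos (P.ch_spec h)]
    rw [h3]
    nlinarith [sq_nonneg ((∑ y, hd ω (P.ew y w)) - 1)]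
  · have h4 : ∑ y, hd ω (P.ew y w) = 0 := by
      apply Finset.sum_eq_zero
      intro y _
      unfold hd
      rw [if_neg (fun h' => h ⟨y, h'⟩)]
    rw [h4]
    have := hd_nonneg ω (P.ew (P.ch ω w) w)
    linarith

open Classical in
lemma optR_ge (ω : P.E → Bool) :
    (∑ w, (P.β : ℝ) * ((∑ y, hd ω (P.ew y w)) -
      ∑ y, ∑ y', (if y = y' then 0 else hd ω (P.ew y w) * hd ω (P.ew y' w)))) +
    (∑ y, (P.a : ℝ) * (hd ω (P.eu y) - hd ω (P.ev y) * hd ω (P.eu y))) +
    (∑ y, (P.b : ℝ) * hd ω (P.ev y)) ≤ P.optR ω := by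
  have h0 : P.optR ω = ∑ e, if e ∈ P.FF ω then (P.v e : ℝ) * hd ω e else 0 := by
    unfold optR
    rw [Finset.sum_ite_mem, Finset.univ_inter]
    exact Finset.sum_congr rfl (fun e _ => P.valOf_coe ω e)
  rw [h0, P.sum_edges]
  have hβ : (0 : ℝ) ≤ P.β := NNReal.coe_nonneg _
  have ha : (0 : ℝ) ≤ P.a := NNReal.coe_nonneg _
  have hb : (0 : ℝ) ≤ P.b := NNReal.coe_nonneg _
  refine add_le_add (add_le_add ?_ ?_) ?_
  · rw [Finset.sum_comm]
    refine Finset.sum_le_sum (fun w _ => ?_)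
    have h1 : (P.β : ℝ) * hd ω (P.ew (P.ch ω w) w) ≤
        ∑ y, (if P.ew y w ∈ P.FF ω then (P.v (P.ew y w) : ℝ) * hd ω (P.ew y w) else 0) := by
      refine le_trans ?_ (Finset.single_le_sum (f := fun y =>
        (if P.ew y w ∈ P.FF ω then (P.v (P.ew y w) : ℝ) * hd ω (P.ew y w) else 0)) ?_
        (Finset.mem_univ (P.ch ω w)))
      · rw [if_pos (P.mem_FF.2 (Or.inl ⟨w, rfl⟩)), v_ew]
      · intro y _
        split_ifs
        · exact mul_nonneg (NNReal.coe_nonneg _) (hd_nonneg _ _)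
        · exact le_refl _
    exact (mul_le_mul_of_nonneg_left (P.hd_ch_ge ω w) hβ).trans h1
  · refine Finset.sum_le_sum (fun y _ => ?_)
    by_cases h : ω (P.ev y) = true
    · have h1 : hd ω (P.ev y) = 1 := by unfold hd; rw [if_pos h]
      rw [h1, one_mul, sub_self, mul_zero]
      split_ifs
      · exact mul_nonneg (NNReal.coe_nonneg _) (hd_nonneg _ _)
      · exact le_refl _
    · have h1 : hd ω (P.ev y) = 0 := by unfold hd; rw [if_neg h]
      rw [h1, zero_mul, sub_zero,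
        if_pos (P.mem_FF.2 (Or.inr (Or.inl ⟨y, rfl, Bool.eq_false_iff.2 h⟩))), v_eu]
  · refine Finset.sum_le_sum (fun y _ => ?_)
    by_cases h : ω (P.ev y) = true
    · rw [if_pos (P.mem_FF.2 (Or.inr (Or.inr ⟨y, rfl, h⟩))), v_ev]
    · have h1 : hd ω (P.ev y) = 0 := by unfold hd; rw [if_neg h]
      rw [h1, mul_zero]
      split_ifs
      · exact mul_nonneg (NNReal.coe_nonneg _) (le_refl _)
      · exact le_refl _

lemma EE_optR_ge : 3 - P.ε - P.k * P.δ ≤ EE P.p P.optR := by
  classical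
  have hk := P.k_pos
  have hn := P.n_pos
  have hδ := P.hδ
  have hε := P.hε
  refine le_trans ?_ (EE_mono P.p P.p_nonneg P.p_le_one P.optR_ge)
  rw [EE_add, EE_add]
  have h1 : EE P.p (fun ω => ∑ y, (P.b : ℝ) * hd ω (P.ev y)) = 1 := by
    rw [EE_sum]
    have : ∀ y, EE P.p (fun ω => (P.b : ℝ) * hd ω (P.ev y)) = 1 / P.k := by
      intro y
      rw [EE_mul, EE_hd, p_ev, coe_b]
      field_simp
    rw [Finset.sum_congr rfl (fun y _ => this y), Finset.sum_const, Finset.card_univ,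
      Fintype.card_fin, nsmul_eq_mul]
    field_simp
  have h2 : EE P.p (fun ω => ∑ y, (P.a : ℝ) * (hd ω (P.eu y) - hd ω (P.ev y) * hd ω (P.eu y))) =
      1 - P.ε := by
    rw [EE_sum]
    have : ∀ y, EE P.p (fun ω => (P.a : ℝ) * (hd ω (P.eu y) - hd ω (P.ev y) * hd ω (P.eu y))) =
        (1 - P.ε) / P.k := by
      intro y
      rw [EE_mul, EE_sub, EE_hd, EE_hd_hd _ (fun h => P.eu_ne_ev h.symm), p_ev, p_eu, coe_a]
      field_simp
    rw [Finset.sum_congr rfl (fun y _ => this y), Finset.sum_const, Finset.card_univ,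
      Fintype.card_fin, nsmul_eq_mul]
    field_simp
  have h3 : 1 - P.k * P.δ ≤ EE P.p (fun ω => ∑ w, (P.β : ℝ) * ((∑ y, hd ω (P.ew y w)) -
      ∑ y, ∑ y', (if y = y' then 0 else hd ω (P.ew y w) * hd ω (P.ew y' w)))) := by
    rw [EE_sum]
    have : ∀ w, (P.β : ℝ) * (P.k * P.δ - P.k ^ 2 * P.δ ^ 2) ≤
        EE P.p (fun ω => (P.β : ℝ) * ((∑ y, hd ω (P.ew y w)) -
      ∑ y, ∑ y', (if y = y' then 0 else hd ω (P.ew y w) * hd ω (P.ew y' w)))) := by
      intro w
      rw [EE_mul]
      refine mul_le_mul_of_nonneg_left ?_ (NNReal.coe_nonneg _)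
      rw [EE_sub, EE_sum, EE_sum]
      have h4 : ∑ y, EE P.p (fun ω => hd ω (P.ew y w)) = P.k * P.δ := by
        simp_rw [EE_hd, p_ew]
        rw [Finset.sum_const, Finset.card_univ, Fintype.card_fin, nsmul_eq_mul]
      have h5 : ∑ y, EE P.p (fun ω => ∑ y', (if y = y' then 0 else
          hd ω (P.ew y w) * hd ω (P.ew y' w))) ≤ P.k ^ 2 * P.δ ^ 2 := by
        have h6 : ∀ y, EE P.p (fun ω => ∑ y', (if y = y' then 0 else
          hd ω (P.ew y w) * hd ω (P.ew y' w))) ≤ P.k * P.δ ^ 2 := by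
          intro y
          rw [EE_sum]
          have h7 : ∀ y', EE P.p (fun ω => (if y = y' then 0 else
              hd ω (P.ew y w) * hd ω (P.ew y' w))) ≤ P.δ ^ 2 := by
            intro y'
            by_cases hy : y = y'
            · simp only [if_pos hy]
              rw [EE_const]
              positivity
            · simp only [if_neg hy]
              rw [EE_hd_hd _ (fun h => hy (P.ew_inj h).1), p_ew, p_ew]
              apply le_of_eq; ring
          refine (Finset.sum_le_sum (fun y' _ => h7 y')).trans ?_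
          rw [Finset.sum_const, Finset.card_univ, Fintype.card_fin, nsmul_eq_mul]
        refine (Finset.sum_le_sum (fun y _ => h6 y)).trans ?_
        rw [Finset.sum_const, Finset.card_univ, Fintype.card_fin, nsmul_eq_mul]
        apply le_of_eq; ring
      linarith
    refine le_trans ?_ (Finset.sum_le_sum (fun w _ => this w))
    rw [Finset.sum_const, Finset.card_univ, Fintype.card_fin, nsmul_eq_mul, coe_β]
    apply le_of_eq
    field_simp
  linarith

end Opt

/-! ### Putting things together -/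

lemma ofReal_EE {f : (P.E → Bool) → ℝ} (hf : ∀ ω, 0 ≤ f ω) :
    ENNReal.ofReal (EE P.p f) =
      ∑ ω : P.E → Bool, ENNReal.ofReal (wt P.p ω) * ENNReal.ofReal (f ω) := by
  unfold EE
  rw [ENNReal.ofReal_sum_of_nonneg
    (fun ω _ => mul_nonneg (wt_nonneg P.p P.p_nonneg P.p_le_one ω) (hf ω))]
  exact Finset.sum_congr rfl (fun ω _ =>
    ENNReal.ofReal_mul (wt_nonneg P.p P.p_nonneg P.p_le_one ω))

lemma optR_nonneg (ω : P.E → Bool) : 0 ≤ P.optR ω :=
  Finset.sum_nonneg (fun _ _ => NNReal.coe_nonneg _)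

lemma algR_nonneg (T : P.E → {t : EReal // t ≠ ⊥}) (ω : P.E → Bool) : 0 ≤ P.algR T ω :=
  Finset.sum_nonneg (fun _ _ => NNReal.coe_nonneg _)

lemma expOpt_ge : ENNReal.ofReal (3 - P.ε - P.k * P.δ) ≤ P.inst.expOpt := by
  unfold Instance.expOpt
  rw [lintegral_joint]
  refine (ENNReal.ofReal_le_ofReal P.EE_optR_ge).trans ?_
  rw [P.ofReal_EE P.optR_nonneg]
  exact Finset.sum_le_sum (fun ω _ => mul_le_mul_right (P.opt_ge ω) _)

lemma expAlg_le {t : ℝ} (ht : 0 < t) (htn : 1 ≤ t ^ 2 * P.n * P.δ ^ 2)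
    (ν : ProbabilityMeasure (P.inst.G.edgeSet → {t : EReal // t ≠ ⊥})) :
    P.inst.expAlg ν ≤ ENNReal.ofReal (1 + t + 2 / (P.ε * P.k) + 1 / P.k) := by
  unfold Instance.expAlg
  have h1 : ∀ T : P.inst.G.edgeSet → {t : EReal // t ≠ ⊥},
      ∫⁻ x, P.inst.alg T x ∂P.inst.joint ≤
        ENNReal.ofReal (1 + t + 2 / (P.ε * P.k) + 1 / P.k) := by
    intro T
    rw [lintegral_joint]
    refine le_trans (le_of_eq ?_) (ENNReal.ofReal_le_ofReal (P.EE_alg_bound T ht htn))
    rw [P.ofReal_EE (P.algR_nonneg T)]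
    exact Finset.sum_congr rfl (fun ω _ => by rw [P.alg_eq T ω])
  refine (lintegral_mono h1).trans ?_
  rw [lintegral_const, measure_univ, mul_one]

lemma ratio_ge {t : ℝ} (ht : 0 < t) (htn : 1 ≤ t ^ 2 * P.n * P.δ ^ 2)
    (ν : ProbabilityMeasure (P.inst.G.edgeSet → {t : EReal // t ≠ ⊥})) :
    ENNReal.ofReal ((3 - P.ε - P.k * P.δ) / (1 + t + 2 / (P.ε * P.k) + 1 / P.k)) ≤
      P.inst.expOpt / P.inst.expAlg ν := by
  have hk := P.k_pos
  have hε := P.hε
  rw [ENNReal.ofReal_div_of_pos (by positivity)]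
  exact ENNReal.div_le_div P.expOpt_ge (P.expAlg_le ht htn ν)

end Par

/-- The parameters used for the natural number `m`. -/
noncomputable def parOf (m : ℕ) (hm : 0 < m) : Par where
  k := m ^ 2
  n := m ^ 8
  δ := 1 / (m : ℝ) ^ 3
  ε := 1 / (m : ℝ)
  hk := by positivity
  hn := by positivity
  hδ := by positivity
  hδ1 := by
    have : (1 : ℝ) ≤ (m : ℝ) := by exact_mod_cast hm
    rw [div_le_one (by positivity)]
    exact one_le_pow₀ this
  hε := by positivity
  hε1 := by
    have : (1 : ℝ) ≤ (m : ℝ) := by exact_mod_cast hm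
    rw [div_le_one (by positivity)]
    exact this

lemma ratio_parOf (m : ℕ) (hm : 0 < m)
    (ν : ProbabilityMeasure ((parOf m hm).inst.G.edgeSet → {t : EReal // t ≠ ⊥})) :
    ENNReal.ofReal (3 - 14 / m) ≤ (parOf m hm).inst.expOpt / (parOf m hm).inst.expAlg ν := by
  have hm' : (0 : ℝ) < m := by exact_mod_cast hm
  have hm1 : (1 : ℝ) ≤ m := by exact_mod_cast hm
  refine le_trans ?_ ((parOf m hm).ratio_ge (t := 1 / m) (by positivity) ?_ ν)
  · apply ENNReal.ofReal_le_ofReal
    change 3 - 14 / (m : ℝ) ≤ (3 - 1 / (m : ℝ) - ((m ^ 2 : ℕ) : ℝ) * (1 / (m : ℝ) ^ 3)) /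
      (1 + 1 / (m : ℝ) + 2 / (1 / (m : ℝ) * ((m ^ 2 : ℕ) : ℝ)) + 1 / ((m ^ 2 : ℕ) : ℝ))
    push_cast
    rw [le_div_iff₀ (by positivity)]
    have h1 : (3 - 1 / (m : ℝ) - (m : ℝ) ^ 2 * (1 / (m : ℝ) ^ 3)) = 3 - 2 / m := by
      field_simp; ring
    have h2 : (1 + 1 / (m : ℝ) + 2 / (1 / (m : ℝ) * (m : ℝ) ^ 2) + 1 / (m : ℝ) ^ 2) =
        1 + 3 / m + 1 / m ^ 2 := by
      field_simp; ring
    rw [h1, h2]
    have h3 : (3 - 2 / (m : ℝ)) - (3 - 14 / m) * (1 + 3 / m + 1 / m ^ 2) =
        (3 * m ^ 2 + 39 * m + 14) / m ^ 3 := by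
      field_simp; ring
    have h4 : 0 ≤ (3 * (m : ℝ) ^ 2 + 39 * m + 14) / m ^ 3 := by positivity
    linarith
  · change 1 ≤ (1 / (m : ℝ)) ^ 2 * ((m ^ 8 : ℕ) : ℝ) * (1 / (m : ℝ) ^ 3) ^ 2
    push_cast
    apply le_of_eq
    field_simp

/-- The optimal worst-case ratio of non-adaptive algorithms on simple graphs is at least `3`. -/
theorem three_le_rhoSimple : 3 ≤ rhoSimple := by
  have key : ∀ m : ℕ, 0 < m → ENNReal.ofReal (3 - 14 / m) ≤ rhoSimple := by
    intro m hm
    unfold rhoSimple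
    refine le_iInf (fun A => ?_)
    exact le_iSup_of_le (parOf m hm).inst (ratio_parOf m hm _)
  by_contra h
  push Not at h
  have htop : rhoSimple ≠ ∞ := ne_top_of_lt h
  have h1 : rhoSimple.toReal < 3 := by
    rw [← ENNReal.toReal_ofNat 3]
    exact (ENNReal.toReal_lt_toReal htop (by simp)).2 h
  obtain ⟨m, hm⟩ := exists_nat_gt (14 / (3 - rhoSimple.toReal))
  have h2 : 0 < 3 - rhoSimple.toReal := by linarith
  have hmpos : (0 : ℝ) < m := lt_of_le_of_lt (by positivity) hm
  have h3 : 0 < m := by exact_mod_cast hmpos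
  have h4 := key m h3
  have h5 : 3 - 14 / (m : ℝ) ≤ rhoSimple.toReal := by
    rw [← ENNReal.ofReal_toReal htop] at h4
    exact (ENNReal.ofReal_le_ofReal_iff ENNReal.toReal_nonneg).1 h4
  have h6 : 14 / (m : ℝ) < 3 - rhoSimple.toReal := by
    rw [div_lt_iff₀ hmpos]
    rw [div_lt_iff₀ h2] at hm
    linarith
  linarith

end Pool.Agent.MP_8487d8_lc
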